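import Mathlib

/-!
# Euler products with local factors of bounded degree
-/

set_option autoImplicit false
set_option linter.unusedSectionVars false

namespace Pool.Agent.X317.Iso

open Complex

theorem log_inv_one_sub {z : ℂ} (hz : ‖z‖ < 1) : log (1 - z)⁻¹ = -log (1 - z) := by
  apply Complex.log_inv
  have h1 : 1 - z ∈ slitPlane := by
    left
    rw [sub_re, one_re]
    have := Complex.re_le_norm z
    linarith
  exact (mem_slitPlane_iff_arg.1 h1).1

theorem one_sub_ne {z : ℂ} (hz : ‖z‖ < 1) : 1 - z ≠ 0 := by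
  intro h
  have h1 : z = 1 := (sub_eq_zero.1 h).symm
  rw [h1, norm_one] at hz
  exact lt_irrefl _ hz

/-- The expansion of one factor. -/
theorem hasSum_local {d : ℕ} (hd : 0 < d) (l x : ℂ) (h : ‖l * x ^ d‖ < 1) :
    HasSum (fun m : ℕ => if d ∣ m then (d : ℂ) * l ^ (m / d) * x ^ m / m else 0)
      (-log (1 - l * x ^ d)) := by
  have h2 := Complex.hasSum_taylorSeries_neg_log h
  have hinj : Function.Injective (fun n : ℕ => d * n) :=
    fun a b h => Nat.eq_of_mul_eq_mul_left hd h
  rw [← hinj.hasSum_iff]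
  · convert h2 using 2 with n
    simp only [Function.comp, dvd_mul_right, if_true]
    have h3 : (d : ℂ) ≠ 0 := by exact_mod_cast hd.ne'
    rw [Nat.mul_div_cancel_left n hd]
    push_cast
    rw [pow_mul, mul_assoc, ← mul_pow, mul_div_mul_left _ _ h3]
  · intro m hm
    rw [if_neg]
    rintro ⟨n, rfl⟩
    exact hm ⟨n, rfl⟩

/-- **Euler products.** -/
theorem hasProd_euler {P : Type*} (deg : P → ℕ) (hdeg : ∀ v, 0 < deg v)
    (hfin : ∀ m, 0 < m → {v | deg v ∣ m}.Finite)
    (q Q C : ℝ) (hq : 1 ≤ q) (hQ : 1 ≤ Q) (hC : 0 ≤ C)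
    (hbound : ∀ m (hm : 0 < m), (∑ v ∈ (hfin m hm).toFinset, (deg v : ℝ)) ≤ C * q ^ m)
    (R : ℕ) (r : P → ℕ) (hr : ∀ v, r v ≤ R) (l : ∀ v, Fin (r v) → ℂ)
    (hl : ∀ v j, ‖l v j‖ ≤ Q ^ deg v)
    {A B : Type*} [Fintype A] [Fintype B] (a : A → ℂ) (b : B → ℂ)
    (ha : ∀ k, ‖a k‖ ≤ Q * q) (hb : ∀ k, ‖b k‖ ≤ Q * q)
    (hcount : ∀ m (hm : 0 < m), (∑ v ∈ (hfin m hm).toFinset,
      (deg v : ℂ) * ∑ j, l v j ^ (m / deg v)) = ∑ k, a k ^ m - ∑ k, b k ^ m)
    (x : ℂ) (hx : ‖x‖ * (Q * q) < 1) :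
    HasProd (fun v => (∏ j, (1 - l v j * x ^ deg v))⁻¹)
      ((∏ k, (1 - b k * x)) / ∏ k, (1 - a k * x)) := by
  classical
  have hq0 : 0 < q := by linarith
  have hQ0 : 0 < Q := by linarith
  have hxn : 0 ≤ ‖x‖ := norm_nonneg x
  have hxQ : ‖x‖ * Q < 1 := by
    refine lt_of_le_of_lt ?_ hx
    rw [← mul_assoc]
    exact le_mul_of_one_le_right (by positivity) hq
  have hax : ∀ k, ‖a k * x‖ < 1 := by
    intro k
    rw [norm_mul, mul_comm]
    exact lt_of_le_of_lt (mul_le_mul_of_nonneg_left (ha k) hxn) hx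
  have hbx : ∀ k, ‖b k * x‖ < 1 := by
    intro k
    rw [norm_mul, mul_comm]
    exact lt_of_le_of_lt (mul_le_mul_of_nonneg_left (hb k) hxn) hx
  have hlx : ∀ v j, ‖l v j * x ^ deg v‖ < 1 := by
    intro v j
    rw [norm_mul, norm_pow]
    calc ‖l v j‖ * ‖x‖ ^ deg v ≤ Q ^ deg v * ‖x‖ ^ deg v :=
          mul_le_mul_of_nonneg_right (hl v j) (by positivity)
      _ = (‖x‖ * Q) ^ deg v := by rw [← mul_pow, mul_comm]
      _ < 1 := pow_lt_one₀ (by positivity) hxQ (hdeg v).ne'
  -- the double family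
  let f : ℕ × P → ℂ := fun z => if deg z.2 ∣ z.1 then
    (deg z.2 : ℂ) * (∑ j, l z.2 j ^ (z.1 / deg z.2)) * x ^ z.1 / z.1 else 0
  have hrow : ∀ m, HasSum (fun v => f (m, v))
      (x ^ m / m * (∑ k, a k ^ m - ∑ k, b k ^ m)) := by
    intro m
    rcases Nat.eq_zero_or_pos m with rfl | hm
    · have h1 : ∀ v, f (0, v) = 0 := by
        intro v
        simp [f]
      simp only [h1, Nat.cast_zero, div_zero, zero_mul]
      exact hasSum_zero
    · rw [← hcount m hm, Finset.mul_sum]
      have h1 : ∑ v ∈ (hfin m hm).toFinset, x ^ m / m * ((deg v : ℂ) * ∑ j, l v j ^ (m / deg v)) =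
          ∑ v ∈ (hfin m hm).toFinset, f (m, v) := by
        refine Finset.sum_congr rfl fun v hv => ?_
        rw [Set.Finite.mem_toFinset] at hv
        have hv' : deg v ∣ m := hv
        simp only [f]
        rw [if_pos hv']
        ring
      rw [h1]
      refine hasSum_sum_of_ne_finset_zero fun v hv => ?_
      rw [Set.Finite.mem_toFinset] at hv
      simp only [f]
      exact if_neg hv
  have hnorm : ∀ m v, ‖f (m, v)‖ ≤ if deg v ∣ m then (deg v : ℝ) * (R * (Q * ‖x‖) ^ m) else 0 := by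
    intro m v
    simp only [f]
    split_ifs with h
    · obtain ⟨e, rfl⟩ := h
      rw [Nat.mul_div_cancel_left e (hdeg v), norm_div, norm_mul, norm_mul, norm_pow,
        Complex.norm_natCast, Complex.norm_natCast]
      have h1 : ‖∑ j, l v j ^ e‖ ≤ R * Q ^ (deg v * e) := by
        refine (norm_sum_le _ _).trans ?_
        calc ∑ j, ‖l v j ^ e‖ ≤ ∑ j : Fin (r v), Q ^ (deg v * e) := by
              refine Finset.sum_le_sum fun j _ => ?_
              rw [norm_pow, pow_mul]
              exact pow_le_pow_left₀ (norm_nonneg _) (hl v j) e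
          _ = r v * Q ^ (deg v * e) := by
              rw [Finset.sum_const, Finset.card_univ, Fintype.card_fin, nsmul_eq_mul]
          _ ≤ R * Q ^ (deg v * e) := by
              refine mul_le_mul_of_nonneg_right ?_ (by positivity)
              exact_mod_cast hr v
      rcases Nat.eq_zero_or_pos (deg v * e) with h0 | h0
      · rw [h0]
        simp only [Nat.cast_zero, div_zero, pow_zero]
        positivity
      · have h2 : (1 : ℝ) ≤ ((deg v * e : ℕ) : ℝ) := by exact_mod_cast h0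
        refine (div_le_self (by positivity) h2).trans ?_
        rw [mul_pow, mul_assoc]
        refine mul_le_mul_of_nonneg_left ?_ (Nat.cast_nonneg _)
        calc ‖∑ j, l v j ^ e‖ * ‖x‖ ^ (deg v * e) ≤ (R * Q ^ (deg v * e)) * ‖x‖ ^ (deg v * e) :=
              mul_le_mul_of_nonneg_right h1 (by positivity)
          _ = R * (Q ^ (deg v * e) * ‖x‖ ^ (deg v * e)) := by ring
    · rw [norm_zero]
  have hrown : ∀ m, Summable (fun v => ‖f (m, v)‖) := fun m => (hrow m).summable.norm
  have hbd : ∀ m, ∑' v, ‖f (m, v)‖ ≤ (C * R) * (‖x‖ * (Q * q)) ^ m := by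
    intro m
    have hnn : 0 ≤ (C * R) * (‖x‖ * (Q * q)) ^ m := by positivity
    rcases Nat.eq_zero_or_pos m with rfl | hm
    · have h1 : ∀ v, ‖f (0, v)‖ = 0 := by
        intro v
        simp [f]
      simp only [h1, tsum_zero]
      exact hnn
    · have h1 : HasSum (fun v => if deg v ∣ m then (deg v : ℝ) * (R * (Q * ‖x‖) ^ m) else 0)
          (∑ v ∈ (hfin m hm).toFinset, (deg v : ℝ) * (R * (Q * ‖x‖) ^ m)) := by
        have h2 : ∑ v ∈ (hfin m hm).toFinset, (deg v : ℝ) * (R * (Q * ‖x‖) ^ m) =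
            ∑ v ∈ (hfin m hm).toFinset,
              if deg v ∣ m then (deg v : ℝ) * (R * (Q * ‖x‖) ^ m) else 0 := by
          refine Finset.sum_congr rfl fun v hv => ?_
          rw [Set.Finite.mem_toFinset] at hv
          have hv' : deg v ∣ m := hv
          rw [if_pos hv']
        rw [h2]
        refine hasSum_sum_of_ne_finset_zero fun v hv => ?_
        rw [Set.Finite.mem_toFinset] at hv
        exact if_neg hv
      have h2 := (hrown m).tsum_le_tsum (hnorm m) h1.summable
      refine h2.trans ?_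
      rw [h1.tsum_eq, ← Finset.sum_mul]
      calc (∑ v ∈ (hfin m hm).toFinset, (deg v : ℝ)) * (R * (Q * ‖x‖) ^ m)
          ≤ (C * q ^ m) * (R * (Q * ‖x‖) ^ m) :=
            mul_le_mul_of_nonneg_right (hbound m hm) (by positivity)
        _ = (C * R) * (‖x‖ * (Q * q)) ^ m := by rw [mul_pow, mul_pow, mul_pow]; ring
  have hsumm : Summable f := by
    refine Summable.of_norm ?_
    rw [summable_prod_of_nonneg (fun z => norm_nonneg _)]
    refine ⟨hrown, ?_⟩
    refine Summable.of_nonneg_of_le (fun m => tsum_nonneg fun v => norm_nonneg _) hbd ?_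
    refine Summable.mul_left _ (summable_geometric_of_lt_one (by positivity) hx)
  obtain ⟨S, hS⟩ := hsumm
  have hS1 := hS.prod_fiberwise hrow
  have hS2 : HasSum (fun m : ℕ => x ^ m / m * (∑ k, a k ^ m - ∑ k, b k ^ m))
      (∑ k, -log (1 - a k * x) - ∑ k, -log (1 - b k * x)) := by
    have h1 := hasSum_sum (s := Finset.univ)
      (fun k _ => Complex.hasSum_taylorSeries_neg_log (hax k))
    have h2 := hasSum_sum (s := Finset.univ)
      (fun k _ => Complex.hasSum_taylorSeries_neg_log (hbx k))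
    have h4 : ∀ m : ℕ, x ^ m / m * (∑ k, a k ^ m - ∑ k, b k ^ m) =
        ∑ k, (a k * x) ^ m / m - ∑ k, (b k * x) ^ m / m := by
      intro m
      simp only [mul_pow]
      rw [mul_sub, Finset.mul_sum, Finset.mul_sum]
      congr 1 <;> exact Finset.sum_congr rfl fun k _ => by ring
    simp only [h4]
    exact h1.sub h2
  have hSeq : S = ∑ k, -log (1 - a k * x) - ∑ k, -log (1 - b k * x) := hS1.unique hS2
  have hB : HasSum (fun v => ∑ j, -log (1 - l v j * x ^ deg v)) S := by
    have h1 : HasSum (f ∘ Prod.swap) S := (Equiv.prodComm P ℕ).hasSum_iff.2 hS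
    refine h1.prod_fiberwise (fun v => ?_)
    have h2 := hasSum_sum (s := Finset.univ) (fun j _ => hasSum_local (hdeg v) (l v j) x (hlx v j))
    convert h2 using 2 with m
    simp only [Function.comp, Prod.swap, f]
    split_ifs with h
    · rw [Finset.mul_sum, Finset.sum_mul, Finset.sum_div]
    · rw [Finset.sum_const_zero]
  have hpne : ∀ v, ∏ j, (1 - l v j * x ^ deg v) ≠ 0 := fun v =>
    Finset.prod_ne_zero_iff.2 fun j _ => one_sub_ne (hlx v j)
  have hexp : ∀ z : ℂ, ‖z‖ < 1 → exp (-log (1 - z)) = (1 - z)⁻¹ := by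
    intro z hz
    rw [exp_neg, exp_log (one_sub_ne hz)]
  have hP := hB.cexp
  convert hP using 1
  · funext v
    rw [Function.comp_apply, exp_sum, ← Finset.prod_inv_distrib]
    exact Finset.prod_congr rfl fun j _ => (hexp _ (hlx v j)).symm
  · rw [hSeq, exp_sub, exp_sum, exp_sum, Finset.prod_congr rfl (fun k _ => hexp _ (hax k)),
      Finset.prod_congr rfl (fun k _ => hexp _ (hbx k)), Finset.prod_inv_distrib,
      Finset.prod_inv_distrib]
    rw [div_inv_eq_mul, div_eq_mul_inv, mul_comm]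

end Pool.Agent.X317.Iso
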