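import Mathlib

/-!
# Places and fixed points
-/

set_option autoImplicit false
set_option linter.unusedSectionVars false

namespace Pool.Agent.X317.Iso

open MulAction

variable {G X : Type*} [Group G] [MulAction G X]

/-- The degree. -/
def dg (δ : G →* Multiplicative ℤ) (w : G) : ℤ := Multiplicative.toAdd (δ w)

/-- The inertia group. -/
def inertia (δ : G →* Multiplicative ℤ) (x : X) : Subgroup G := δ.ker ⊓ stabilizer G x

/-- The places. -/
structure IsPlaces (δ : G →* Multiplicative ℤ) {P : Type*} (pt : P → X) (fr : P → G)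
    (deg : P → ℕ) : Prop where
  orbit : ∀ x : X, ∃! v, ∃ w : G, w • pt v = x
  pos : ∀ v, 0 < deg v
  fixes : ∀ v, fr v • pt v = pt v
  degree : ∀ v, dg δ (fr v) = deg v
  least : ∀ v (w : G), w • pt v = pt v → (deg v : ℤ) ∣ dg δ w

variable (δ : G →* Multiplicative ℤ)

@[simp] theorem dg_mul (a b : G) : dg δ (a * b) = dg δ a + dg δ b := by simp [dg]
@[simp] theorem dg_one : dg δ 1 = 0 := by simp [dg]
@[simp] theorem dg_inv (a : G) : dg δ a⁻¹ = - dg δ a := by simp [dg]
@[simp] theorem dg_pow (a : G) (n : ℕ) : dg δ (a ^ n) = n * dg δ a := by simp [dg]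
@[simp] theorem dg_zpow (a : G) (n : ℤ) : dg δ (a ^ n) = n * dg δ a := by simp [dg]

theorem mem_ker_iff (w : G) : w ∈ δ.ker ↔ dg δ w = 0 := by
  rw [MonoidHom.mem_ker, dg]
  exact Multiplicative.toAdd.injective.eq_iff' rfl |>.symm

theorem mem_inertia_iff (x : X) (w : G) : w ∈ inertia δ x ↔ dg δ w = 0 ∧ w • x = x := by
  rw [inertia, Subgroup.mem_inf, mem_ker_iff, mem_stabilizer_iff]

variable [hfk : Finite δ.ker]

theorem finite_level (m : ℤ) : {w : G | dg δ w = m}.Finite := by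
  rcases Set.eq_empty_or_nonempty {w : G | dg δ w = m} with h | ⟨w₀, hw₀⟩
  · rw [h]
    exact Set.finite_empty
  · refine (Set.finite_range (fun γ : δ.ker => w₀ * (γ : G))).subset ?_
    intro w hw
    have h1 : dg δ w = m := hw
    have h2 : dg δ w₀ = m := hw₀
    refine ⟨⟨w₀⁻¹ * w, ?_⟩, by simp⟩
    rw [mem_ker_iff, dg_mul, dg_inv, h1, h2]
    ring

/-- The elements of degree `m`. -/
noncomputable def lev (m : ℤ) : Finset G := (finite_level δ m).toFinset

@[simp] theorem mem_lev (m : ℤ) (w : G) : w ∈ lev δ m ↔ dg δ w = m := by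
  rw [lev, Set.Finite.mem_toFinset]
  rfl

open Classical in
/-- The sum over the elements of degree `m` that fix `x`. -/
noncomputable def fsum (t : G → ℂ) (m : ℤ) (x : X) : ℂ := ∑ w ∈ lev δ m with w • x = x, t w

theorem fsum_smul (t : G → ℂ) (ht : ∀ g w, t (g * w * g⁻¹) = t w) (m : ℤ) (g : G) (x : X) :
    fsum δ t m (g • x) = fsum δ t m x := by
  classical
  unfold fsum
  refine Finset.sum_bij' (fun w _ => g⁻¹ * w * g) (fun w _ => g * w * g⁻¹) ?_ ?_ ?_ ?_ ?_
  · intro w hw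
    rw [Finset.mem_filter, mem_lev] at hw ⊢
    refine ⟨by rw [dg_mul, dg_mul, dg_inv, hw.1]; ring, ?_⟩
    rw [mul_smul, mul_smul, hw.2, inv_smul_smul]
  · intro w hw
    rw [Finset.mem_filter, mem_lev] at hw ⊢
    refine ⟨by rw [dg_mul, dg_mul, dg_inv, hw.1]; ring, ?_⟩
    rw [mul_smul, mul_smul, inv_smul_smul, hw.2]
  · intro w _
    group
  · intro w _
    group
  · intro w _
    have h := ht g⁻¹ w
    rw [inv_inv] at h
    exact h.symm

variable {P : Type*} {pt : P → X} {fr : P → G} {deg : P → ℕ}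

/-- The points of one orbit. -/
noncomputable def orb (φ : G) (v : P) (pt : P → X) (deg : P → ℕ) : Set X :=
  Set.range (fun z : Fin (deg v) × δ.ker => (φ ^ (z.1 : ℕ) * (z.2 : G)) • pt v)

instance orb_finite (φ : G) (v : P) : Finite (orb δ φ v pt deg) :=
  Set.finite_range _

omit hfk in
theorem mem_orb_iff (H : IsPlaces δ pt fr deg) (φ : G) (hφ : dg δ φ = 1) (v : P) (x : X) :
    x ∈ orb δ φ v pt deg ↔ ∃ w : G, w • pt v = x := by
  constructor
  · rintro ⟨z, hz⟩
    exact ⟨_, hz⟩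
  · rintro ⟨w, rfl⟩
    have hd : (0 : ℤ) < deg v := by exact_mod_cast H.pos v
    have h1 : 0 ≤ dg δ w % deg v := Int.emod_nonneg _ hd.ne'
    have h2 : dg δ w % deg v < deg v := Int.emod_lt_of_pos _ hd
    obtain ⟨i, hi⟩ := Int.eq_ofNat_of_zero_le h1
    have hi2 : i < deg v := by
      rw [hi] at h2
      exact_mod_cast h2
    have h3 := Int.emod_add_mul_ediv (dg δ w) (deg v)
    have hfix : fr v ^ (-(dg δ w / deg v)) • pt v = pt v := by
      have h4 : fr v ∈ stabilizer G (pt v) := H.fixes v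
      exact (stabilizer G (pt v)).zpow_mem h4 _
    refine ⟨⟨⟨i, hi2⟩, ⟨(φ ^ i)⁻¹ * (w * fr v ^ (-(dg δ w / deg v))), ?_⟩⟩, ?_⟩
    · rw [mem_ker_iff, dg_mul, dg_mul, dg_inv, dg_pow, dg_zpow, hφ, H.degree]
      rw [← hi]
      linarith
    · change (φ ^ i * ((φ ^ i)⁻¹ * (w * fr v ^ (-(dg δ w / deg v))))) • pt v = w • pt v
      rw [mul_inv_cancel_left, mul_smul, hfix]

theorem card_orb (H : IsPlaces δ pt fr deg) (φ : G) (hφ : dg δ φ = 1) (v : P) :
    Nat.card (orb δ φ v pt deg) * Nat.card (inertia δ (pt v)) = deg v * Nat.card δ.ker := by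
  classical
  have hfi : Finite (inertia δ (pt v)) :=
    Finite.of_injective (fun g : inertia δ (pt v) => (⟨g.1, g.2.1⟩ : δ.ker)) (by
      intro a b h
      exact Subtype.ext (congrArg (fun z : δ.ker => (z : G)) h))
  have hchoose : ∀ x : orb δ φ v pt deg, ∃ z : Fin (deg v) × δ.ker,
      (φ ^ (z.1 : ℕ) * (z.2 : G)) • pt v = x := fun x => x.2
  choose s hs using hchoose
  let e : orb δ φ v pt deg × inertia δ (pt v) → Fin (deg v) × δ.ker := fun y =>
    ⟨(s y.1).1, ⟨((s y.1).2 : G) * (y.2 : G), δ.ker.mul_mem (s y.1).2.2 y.2.2.1⟩⟩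
  have hval : ∀ y, (φ ^ ((e y).1 : ℕ) * ((e y).2 : G)) • pt v = y.1 := by
    intro y
    have h1 : ((y.2 : inertia δ (pt v)) : G) • pt v = pt v := y.2.2.2
    change (φ ^ ((s y.1).1 : ℕ) * (((s y.1).2 : G) * (y.2 : G))) • pt v = y.1
    rw [← mul_assoc, mul_smul, h1]
    exact hs y.1
  have hbij : Function.Bijective e := by
    constructor
    · rintro ⟨x, g⟩ ⟨x', g'⟩ h
      have h1 : x = x' := by
        have h2 := hval (x, g)
        have h3 := hval (x', g')
        rw [h] at h2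
        exact Subtype.ext (h2.symm.trans h3)
      subst h1
      have h2 : ((s x).2 : G) * (g : G) = ((s x).2 : G) * (g' : G) :=
        congrArg (fun z : Fin (deg v) × δ.ker => ((z.2 : δ.ker) : G)) h
      have h3 : g = g' := Subtype.ext (mul_left_cancel h2)
      rw [h3]
    · rintro ⟨i, γ⟩
      let x : orb δ φ v pt deg := ⟨(φ ^ (i : ℕ) * (γ : G)) • pt v, ⟨(i, γ), rfl⟩⟩
      have h1 : (φ ^ ((s x).1 : ℕ) * ((s x).2 : G)) • pt v = (φ ^ (i : ℕ) * (γ : G)) • pt v := hs x
      have h2 : ((φ ^ ((s x).1 : ℕ) * ((s x).2 : G))⁻¹ * (φ ^ (i : ℕ) * (γ : G))) • pt v = pt v := by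
        rw [mul_smul, ← h1, inv_smul_smul]
      have hγ : dg δ (γ : G) = 0 := (mem_ker_iff δ _).1 γ.2
      have hγ' : dg δ ((s x).2 : G) = 0 := (mem_ker_iff δ _).1 (s x).2.2
      have h3 := H.least v _ h2
      simp only [dg_mul, dg_inv, dg_pow, hφ, hγ, hγ', mul_one, add_zero] at h3
      have h4 : ((s x).1 : ℕ) = (i : ℕ) := by
        have h5 : ((i : ℕ) : ℤ) % deg v = (((s x).1 : ℕ) : ℤ) % deg v := by
          apply Int.emod_emod_of_dvd _ (dvd_refl _) |>.symm.trans
          rw [Int.emod_emod_of_dvd _ (dvd_refl _)]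
          exact (Int.emod_emod_of_dvd _ (dvd_refl _)).symm.trans
            ((Int.emod_emod_of_dvd _ (dvd_refl _)).trans (Int.ModEq.symm (Int.modEq_iff_dvd.2 (by
              have : ((i : ℕ) : ℤ) - ((s x).1 : ℕ) = -(((s x).1 : ℕ) : ℤ) + ((i : ℕ) : ℤ) := by ring
              rw [this]
              exact h3))))
        rw [Int.emod_eq_of_lt (by positivity) (by exact_mod_cast i.2),
          Int.emod_eq_of_lt (by positivity) (by exact_mod_cast (s x).1.2)] at h5
        exact_mod_cast h5.symm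
      have h6 : (((s x).2 : G))⁻¹ * (γ : G) ∈ inertia δ (pt v) := by
        rw [mem_inertia_iff]
        refine ⟨by rw [dg_mul, dg_inv, hγ, hγ']; ring, ?_⟩
        rw [h4, mul_inv_rev, mul_assoc, inv_mul_cancel_left] at h2
        exact h2
      refine ⟨(x, ⟨_, h6⟩), ?_⟩
      refine Prod.ext (Fin.ext h4) (Subtype.ext ?_)
      change ((s x).2 : G) * (((s x).2 : G)⁻¹ * (γ : G)) = γ
      rw [mul_inv_cancel_left]
  have h := Nat.card_congr (Equiv.ofBijective e hbij)
  rw [Nat.card_prod, Nat.card_prod, Nat.card_fin] at h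
  exact h

/-- The fixed points of the elements of degree `m`. -/
def fixed (X : Type*) [MulAction G X] (m : ℤ) : Set X := {x | ∃ w : G, dg δ w = m ∧ w • x = x}

theorem fixed_finite (m : ℤ) (hf : ∀ w : G, dg δ w = m → {x : X | w • x = x}.Finite) :
    (fixed δ X m).Finite := by
  have h : fixed δ X m = ⋃ w ∈ lev δ m, {x : X | w • x = x} := by
    ext x
    simp only [fixed, Set.mem_iUnion, mem_lev]
    constructor
    · rintro ⟨w, hw, hx⟩
      exact ⟨w, hw, hx⟩
    · rintro ⟨w, hw, hx⟩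
      exact ⟨w, hw, hx⟩
  rw [h]
  exact Set.Finite.biUnion (lev δ m).finite_toSet fun w hw => hf w ((mem_lev δ m w).1 hw)

omit hfk in
theorem mem_fixed_iff (H : IsPlaces δ pt fr deg) (v : P) (m : ℕ) :
    pt v ∈ fixed δ X (m : ℤ) ↔ deg v ∣ m := by
  constructor
  · rintro ⟨w, hw, hx⟩
    have := H.least v w hx
    rw [hw] at this
    exact_mod_cast this
  · rintro ⟨e, rfl⟩
    refine ⟨fr v ^ e, ?_, ?_⟩
    · rw [dg_pow, H.degree]
      push_cast
      ring
    · have h4 : fr v ∈ stabilizer G (pt v) := H.fixes v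
      exact (stabilizer G (pt v)).pow_mem h4 e

omit hfk in
theorem smul_mem_fixed (m : ℤ) (g : G) (x : X) : g • x ∈ fixed δ X m ↔ x ∈ fixed δ X m := by
  constructor
  · rintro ⟨w, hw, hx⟩
    refine ⟨g⁻¹ * w * g, by rw [dg_mul, dg_mul, dg_inv, hw]; ring, ?_⟩
    rw [mul_smul, mul_smul, hx, inv_smul_smul]
  · rintro ⟨w, hw, hx⟩
    refine ⟨g * w * g⁻¹, by rw [dg_mul, dg_mul, dg_inv, hw]; ring, ?_⟩
    rw [mul_smul, mul_smul, inv_smul_smul, hx]

theorem places_finite (H : IsPlaces δ pt fr deg) (m : ℕ)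
    (hf : ∀ w : G, dg δ w = m → {x : X | w • x = x}.Finite) : {v | deg v ∣ m}.Finite := by
  have hinj : Function.Injective pt := by
    intro a b h
    obtain ⟨v, _, huniq⟩ := H.orbit (pt a)
    rw [huniq a ⟨1, one_smul G _⟩, huniq b ⟨1, by rw [one_smul, h]⟩]
  refine Set.Finite.of_finite_image (f := pt) ((fixed_finite δ (X := X) m hf).subset ?_)
    hinj.injOn
  rintro _ ⟨v, hv, rfl⟩
  exact (mem_fixed_iff δ H v m).2 hv

/-- **The sum over fixed points as a sum over places.** -/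
theorem sum_fixed (H : IsPlaces δ pt fr deg) (φ : G) (hφ : dg δ φ = 1) (m : ℕ)
    (hf : ∀ w : G, dg δ w = m → {x : X | w • x = x}.Finite)
    (t : G → ℂ) (ht : ∀ g w, t (g * w * g⁻¹) = t w)
    (hfin : {v | deg v ∣ m}.Finite) :
    ∑ w ∈ lev δ (m : ℤ), (Nat.card {x : X // w • x = x} : ℂ) * t w =
      ∑ v ∈ hfin.toFinset, (Nat.card (orb δ φ v pt deg) : ℂ) * fsum δ t m (pt v) := by
  classical
  choose cl hcl huniq using H.orbit
  let Y : Finset X := (fixed_finite δ (X := X) m hf).toFinset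
  have hY : ∀ x, x ∈ Y ↔ x ∈ fixed δ X (m : ℤ) := fun x => Set.Finite.mem_toFinset _
  have h1 : ∀ w ∈ lev δ (m : ℤ), (Nat.card {x : X // w • x = x} : ℂ) * t w =
      ∑ x ∈ Y with w • x = x, t w := by
    intro w hw
    rw [mem_lev] at hw
    rw [Finset.sum_const, nsmul_eq_mul]
    congr 2
    have h2 : (Finset.filter (fun x => w • x = x) Y : Set X) = {x : X | w • x = x} := by
      ext x
      rw [Finset.mem_coe, Finset.mem_filter, hY]
      exact ⟨fun h => h.2, fun h => ⟨⟨w, hw, h⟩, h⟩⟩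
    have h3 := Nat.card_congr (Equiv.setCongr h2)
    rw [Nat.card_eq_card_toFinset, Finset.toFinset_coe] at h3
    exact h3.symm
  rw [Finset.sum_congr rfl h1]
  have h2 : ∑ w ∈ lev δ (m : ℤ), ∑ x ∈ Y with w • x = x, t w = ∑ x ∈ Y, fsum δ t m x := by
    simp only [fsum, Finset.sum_filter]
    exact Finset.sum_comm
  rw [h2]
  have hmaps : ∀ x ∈ Y, cl x ∈ hfin.toFinset := by
    intro x hx
    rw [Set.Finite.mem_toFinset]
    rw [hY] at hx
    obtain ⟨g, hg⟩ := hcl x
    have h3 : cl x ∈ {v | deg v ∣ m} := by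
      refine (mem_fixed_iff δ H (cl x) m).1 ?_
      rw [← smul_mem_fixed δ m g, hg]
      exact hx
    exact h3
  rw [← Finset.sum_fiberwise_of_maps_to hmaps]
  refine Finset.sum_congr rfl fun v hv => ?_
  rw [Set.Finite.mem_toFinset] at hv
  have hv' : deg v ∣ m := hv
  have h4 : ∀ x ∈ Finset.filter (fun x => cl x = v) Y, fsum δ t m x = fsum δ t m (pt v) := by
    intro x hx
    rw [Finset.mem_filter] at hx
    obtain ⟨g, hg⟩ := hcl x
    rw [hx.2] at hg
    rw [← hg, fsum_smul δ t ht]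
  rw [Finset.sum_congr rfl h4, Finset.sum_const, nsmul_eq_mul]
  congr 2
  have h5 : (Finset.filter (fun x => cl x = v) Y : Set X) = orb δ φ v pt deg := by
    ext x
    rw [Finset.mem_coe, Finset.mem_filter, hY, mem_orb_iff δ H φ hφ]
    constructor
    · rintro ⟨_, h⟩
      obtain ⟨g, hg⟩ := hcl x
      rw [h] at hg
      exact ⟨g, hg⟩
    · rintro ⟨g, rfl⟩
      refine ⟨?_, (huniq _ v ⟨g, rfl⟩).symm⟩
      rw [smul_mem_fixed]
      exact (mem_fixed_iff δ H v m).2 hv'
  have h6 := Nat.card_congr (Equiv.setCongr h5)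
  rw [Nat.card_eq_card_toFinset, Finset.toFinset_coe] at h6
  exact h6

end Pool.Agent.X317.Iso
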