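import Mathlib
import Pool.Agent.X317.Iso.Count
import Pool.Agent.W484.BB.Eigen

/-!
# Invariants of finite subgroups
-/

set_option autoImplicit false
set_option linter.unusedSectionVars false

namespace Pool.Agent.X317.Iso

open MulAction Module

variable {G : Type*} [Group G] {U : Type*} [AddCommGroup U] [Module ℂ U]

/-- The vectors fixed by the subgroup `I`. -/
def invs (ρ : Representation ℂ G U) (I : Subgroup G) : Submodule ℂ U where
  carrier := {u | ∀ g ∈ I, ρ g u = u}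
  zero_mem' := fun g _ => map_zero _
  add_mem' := fun {a b} ha hb g hg => by rw [map_add, ha g hg, hb g hg]
  smul_mem' := fun c a ha g hg => by rw [map_smul, ha g hg]

theorem mem_invs (ρ : Representation ℂ G U) (I : Subgroup G) (u : U) :
    u ∈ invs ρ I ↔ ∀ g ∈ I, ρ g u = u := Iff.rfl

theorem mapsTo_invs (ρ : Representation ℂ G U) (I : Subgroup G) (w : G)
    (hw : ∀ g ∈ I, w⁻¹ * g * w ∈ I) (u : U) (hu : u ∈ invs ρ I) : ρ w u ∈ invs ρ I := by
  intro g hg
  have h1 := hu _ (hw g hg)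
  have h2 : g * w = w * (w⁻¹ * g * w) := by group
  rw [← Module.End.mul_apply, ← map_mul, h2, map_mul, Module.End.mul_apply, h1]

/-- The average over the finite subgroup `I`. -/
noncomputable def avg (ρ : Representation ℂ G U) (I : Subgroup G) [Fintype I] : U →ₗ[ℂ] U :=
  (Fintype.card I : ℂ)⁻¹ • ∑ g : I, ρ (g : G)

theorem avg_apply (ρ : Representation ℂ G U) (I : Subgroup G) [Fintype I] (u : U) :
    avg ρ I u = (Fintype.card I : ℂ)⁻¹ • ∑ g : I, ρ (g : G) u := by
  rw [avg, LinearMap.smul_apply, LinearMap.sum_apply]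

theorem avg_mem (ρ : Representation ℂ G U) (I : Subgroup G) [Fintype I] (u : U) :
    avg ρ I u ∈ invs ρ I := by
  intro g hg
  rw [avg_apply, map_smul, map_sum]
  congr 1
  refine Fintype.sum_equiv (Equiv.mulLeft (⟨g, hg⟩ : I)) _ _ ?_
  intro x
  rw [← Module.End.mul_apply, ← map_mul]
  rfl

theorem avg_of_mem (ρ : Representation ℂ G U) (I : Subgroup G) [Fintype I] (u : U)
    (hu : u ∈ invs ρ I) : avg ρ I u = u := by
  rw [avg_apply, Finset.sum_congr rfl (fun (g : I) _ => hu (g : G) g.2), Finset.sum_const,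
    Finset.card_univ, ← Nat.cast_smul_eq_nsmul ℂ, smul_smul, inv_mul_cancel₀, one_smul]
  exact_mod_cast Fintype.card_ne_zero

/-- **The trace on the invariants.** -/
theorem sum_trace [FiniteDimensional ℂ U] (ρ : Representation ℂ G U) (I : Subgroup G) [Fintype I]
    (w : G) (hw : ∀ g ∈ I, w⁻¹ * g * w ∈ I) :
    ∑ g : I, LinearMap.trace ℂ U (ρ (w * (g : G))) =
      (Fintype.card I : ℂ) * LinearMap.trace ℂ (invs ρ I) ((ρ w).restrict (mapsTo_invs ρ I w hw)) := by
  have h1 : ∑ g : I, LinearMap.trace ℂ U (ρ (w * (g : G))) =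
      (Fintype.card I : ℂ) * LinearMap.trace ℂ U (ρ w ∘ₗ avg ρ I) := by
    have h2 : ρ w ∘ₗ avg ρ I = (Fintype.card I : ℂ)⁻¹ • ∑ g : I, ρ (w * (g : G)) := by
      ext u
      rw [LinearMap.comp_apply, avg_apply, map_smul, map_sum, LinearMap.smul_apply,
        LinearMap.sum_apply]
      congr 1
      refine Finset.sum_congr rfl fun g _ => ?_
      rw [map_mul, Module.End.mul_apply]
    rw [h2, map_smul, map_sum, smul_eq_mul, mul_inv_cancel_left₀]
    exact_mod_cast Fintype.card_ne_zero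
  rw [h1]
  congr 1
  have h3 : ∀ u, (ρ w ∘ₗ avg ρ I) u ∈ invs ρ I := fun u => by
    rw [LinearMap.comp_apply]
    exact mapsTo_invs ρ I w hw _ (avg_mem ρ I u)
  have h4 : (ρ w).restrict (mapsTo_invs ρ I w hw) =
      (ρ w ∘ₗ avg ρ I).restrict (fun u _ => h3 u) := by
    ext u
    rw [LinearMap.restrict_apply, LinearMap.restrict_apply]
    change ρ w u = ρ w (avg ρ I u)
    rw [avg_of_mem ρ I u u.2]
  rw [h4]
  exact (LinearMap.trace_restrict_eq_of_forall_mem (invs ρ I) (ρ w ∘ₗ avg ρ I) h3).symm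

/-! ### Eigenvectors -/

/-- If a power of `T` multiplies `v` by a nonzero number then `v` is a sum of eigenvectors. -/
theorem mem_span_of_pow (T : U →ₗ[ℂ] U) (M : ℕ) (hM : 0 < M) (v : U) (μ : ℂ) (hμ : μ ≠ 0)
    (h : (T ^ M) v = μ • v) : v ∈ Submodule.span ℂ {u : U | ∃ l : ℂ, l ^ M = μ ∧ T u = l • u} := by
  classical
  obtain ⟨l₀, hl₀⟩ := IsAlgClosed.exists_pow_nat_eq μ hM
  have hl₀' : l₀ ≠ 0 := by
    rintro rfl
    rw [zero_pow hM.ne'] at hl₀
    exact hμ hl₀.symm
  have hζ := Complex.isPrimitiveRoot_exp M hM.ne'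
  let ζ : ℂ := Complex.exp (2 * Real.pi * Complex.I / M)
  have hζ1 : IsPrimitiveRoot ζ M := hζ
  have hζ0 : ζ ≠ 0 := Complex.exp_ne_zero _
  have hM' : (M : ℂ) ≠ 0 := by exact_mod_cast hM.ne'
  let u : ℕ → U := fun i => ∑ j ∈ Finset.range M, ((l₀ * ζ ^ i) ^ j)⁻¹ • (T ^ j) v
  have hu : ∀ i, T (u i) = (l₀ * ζ ^ i) • u i := by
    intro i
    have hl : l₀ * ζ ^ i ≠ 0 := mul_ne_zero hl₀' (pow_ne_zero _ hζ0)
    have hlM : (l₀ * ζ ^ i) ^ M = μ := by
      rw [mul_pow, hl₀, ← pow_mul, mul_comm i, pow_mul, hζ1.pow_eq_one, one_pow, mul_one]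
    have h1 : T (u i) = ∑ j ∈ Finset.range M, ((l₀ * ζ ^ i) ^ j)⁻¹ • (T ^ (j + 1)) v := by
      simp only [u]
      rw [map_sum]
      refine Finset.sum_congr rfl fun j _ => ?_
      rw [map_smul, pow_succ', Module.End.mul_apply]
    have h2 : (l₀ * ζ ^ i) • u i =
        ∑ j ∈ Finset.range M, ((l₀ * ζ ^ i) * ((l₀ * ζ ^ i) ^ j)⁻¹) • (T ^ j) v := by
      simp only [u]
      rw [Finset.smul_sum]
      exact Finset.sum_congr rfl fun j _ => by rw [smul_smul]
    rw [h1, h2]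
    obtain ⟨K, rfl⟩ : ∃ K, M = K + 1 := ⟨M - 1, by omega⟩
    rw [Finset.sum_range_succ, Finset.sum_range_succ' (fun j =>
      ((l₀ * ζ ^ i) * ((l₀ * ζ ^ i) ^ j)⁻¹) • (T ^ j) v)]
    congr 1
    · refine Finset.sum_congr rfl fun j _ => ?_
      congr 1
      rw [pow_succ' (l₀ * ζ ^ i) j, mul_inv, mul_inv_cancel_left₀ hl]
    · rw [h, pow_zero, inv_one, mul_one, pow_zero, smul_smul, Module.End.one_apply]
      congr 1
      rw [← hlM, pow_succ, ← mul_assoc, inv_mul_cancel₀ (pow_ne_zero _ hl), one_mul]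
  have hv : v = (M : ℂ)⁻¹ • ∑ i ∈ Finset.range M, u i := by
    have h1 : ∑ i ∈ Finset.range M, u i = ∑ j ∈ Finset.range M,
        (∑ i ∈ Finset.range M, ((l₀ * ζ ^ i) ^ j)⁻¹) • (T ^ j) v := by
      simp only [u]
      rw [Finset.sum_comm]
      exact Finset.sum_congr rfl fun j _ => by rw [Finset.sum_smul]
    have h2 : ∀ j ∈ Finset.range M, (∑ i ∈ Finset.range M, ((l₀ * ζ ^ i) ^ j)⁻¹) • (T ^ j) v =
        if j = 0 then (M : ℂ) • v else 0 := by
      intro j hj
      rw [Finset.mem_range] at hj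
      split_ifs with h0
      · subst h0
        simp only [pow_zero, inv_one, Finset.sum_const, Finset.card_range, nsmul_eq_mul, mul_one,
          Module.End.one_apply]
      · have h3 : ∑ i ∈ Finset.range M, ((l₀ * ζ ^ i) ^ j)⁻¹ =
            (l₀ ^ j)⁻¹ * ∑ i ∈ Finset.range M, ((ζ ^ j)⁻¹) ^ i := by
          rw [Finset.mul_sum]
          refine Finset.sum_congr rfl fun i _ => ?_
          rw [mul_pow, mul_inv, inv_pow]
          congr 2
          rw [← pow_mul, ← pow_mul, mul_comm]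
        have h4 : (ζ ^ j)⁻¹ ≠ 1 := by
          intro h5
          rw [inv_eq_one] at h5
          exact hζ1.pow_ne_one_of_pos_of_lt (Nat.pos_of_ne_zero h0).ne' hj h5
        have h5 : ∑ i ∈ Finset.range M, ((ζ ^ j)⁻¹) ^ i = 0 := by
          have h6 := geom_sum_mul ((ζ ^ j)⁻¹) M
          rw [inv_pow, ← pow_mul, mul_comm j M, pow_mul, hζ1.pow_eq_one, one_pow, inv_one,
            sub_self] at h6
          rcases mul_eq_zero.1 h6 with h7 | h7
          · exact h7
          · exact absurd (sub_eq_zero.1 h7) h4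
        rw [h3, h5, mul_zero, zero_smul]
    rw [h1, Finset.sum_congr rfl h2, Finset.sum_ite_eq' (Finset.range M) 0,
      if_pos (Finset.mem_range.2 hM), smul_smul, inv_mul_cancel₀ hM', one_smul]
  rw [hv]
  refine Submodule.smul_mem _ _ (Submodule.sum_mem _ fun i _ => Submodule.subset_span ?_)
  refine ⟨l₀ * ζ ^ i, ?_, hu i⟩
  rw [mul_pow, hl₀, ← pow_mul, mul_comm i, pow_mul, hζ1.pow_eq_one, one_pow, mul_one]

/-- The eigenvectors of `ρ w` on the invariants of a finite subgroup, if a central element is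
diagonalizable. -/
theorem span_invs (ρ : Representation ℂ G U) (I : Subgroup G) [Fintype I]
    (z : G) (hz : ∀ g : G, z * g = g * z) (E : ℂ → Prop) (hE : ∀ α, E α → α ≠ 0)
    (hU : Submodule.span ℂ {u : U | ∃ α : ℂ, E α ∧ ρ z u = α • u} = ⊤)
    (w : G) (hw : ∀ g ∈ I, w⁻¹ * g * w ∈ I) (M d : ℕ) (hM : 0 < M) (hwz : w ^ M = z ^ d) :
    Submodule.span ℂ {u : invs ρ I | ∃ l : ℂ, (∃ α, E α ∧ l ^ M = α ^ d) ∧
      (ρ w).restrict (mapsTo_invs ρ I w hw) u = l • u} = ⊤ := by
  have hzI : ∀ g ∈ I, z⁻¹ * g * z ∈ I := by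
    intro g hg
    rw [mul_assoc, ← hz g, inv_mul_cancel_left]
    exact hg
  -- the average as a map to the invariants
  let A : U →ₗ[ℂ] invs ρ I := (avg ρ I).codRestrict (invs ρ I) (avg_mem ρ I)
  have hA : LinearMap.range A = ⊤ := by
    rw [LinearMap.range_eq_top]
    intro u
    exact ⟨u, Subtype.ext (avg_of_mem ρ I u u.2)⟩
  rw [eq_top_iff, ← hA, LinearMap.range_eq_map, ← hU, Submodule.map_span, Submodule.span_le]
  rintro _ ⟨u, ⟨α, hα, hu⟩, rfl⟩
  have h1 : ∀ k : ℕ, ρ (z ^ k) (avg ρ I u) = α ^ k • avg ρ I u := by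
    have h2 : ρ z (avg ρ I u) = α • avg ρ I u := by
      have h0 : ∀ g : I, ρ z (ρ (g : G) u) = α • ρ (g : G) u := by
        intro g
        have h00 : ρ z (ρ (g : G) u) = ρ (g : G) (ρ z u) := by
          rw [← Module.End.mul_apply, ← map_mul, hz, map_mul, Module.End.mul_apply]
        rw [h00, hu, map_smul]
      have h01 : ρ z (avg ρ I u) = (Fintype.card I : ℂ)⁻¹ • ∑ g : I, ρ z (ρ (g : G) u) := by
        rw [avg_apply, map_smul, map_sum]
      rw [h01, Finset.sum_congr rfl (fun g _ => h0 g), ← Finset.smul_sum, smul_comm, ← avg_apply]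
    intro k
    induction k with
    | zero => simp
    | succ k ih =>
      rw [pow_succ', map_mul, Module.End.mul_apply, ih, map_smul, h2, smul_smul, pow_succ]
  have h3 : ∀ k : ℕ, ∀ y : invs ρ I,
      ((((ρ w).restrict (mapsTo_invs ρ I w hw)) ^ k) y : U) = ρ (w ^ k) y := by
    intro k y
    induction k with
    | zero => simp
    | succ k ih =>
      rw [pow_succ', Module.End.mul_apply, pow_succ', map_mul, Module.End.mul_apply, ← ih]
      rfl
  have h4 : (((ρ w).restrict (mapsTo_invs ρ I w hw)) ^ M) (A u) = α ^ d • A u := by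
    apply Subtype.ext
    rw [h3, hwz]
    exact h1 d
  have h5 := mem_span_of_pow ((ρ w).restrict (mapsTo_invs ρ I w hw)) M hM (A u) (α ^ d)
    (pow_ne_zero _ (hE α hα)) h4
  refine Submodule.span_mono ?_ h5
  rintro y ⟨l, hl, hy⟩
  exact ⟨l, ⟨α, hα, hl⟩, hy⟩

end Pool.Agent.X317.Iso
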