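import Mathlib
import Pool.Agent.X317.Iso.Rep

/-!
# The trace formula
-/

set_option autoImplicit false
set_option linter.unusedSectionVars false

namespace Pool.Agent.X317.Iso

open MulAction Module TensorProduct

variable {G X : Type*} [Group G] [MulAction G X] (δ : G →* Multiplicative ℤ)
variable {U : Type*} [AddCommGroup U] [Module ℂ U]

theorem conj_ker (w g : G) (hg : g ∈ δ.ker) : w⁻¹ * g * w ∈ δ.ker := by
  rw [mem_ker_iff] at hg ⊢
  rw [dg_mul, dg_mul, dg_inv, hg]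
  ring

theorem conj_inertia (x : X) (w : G) (hw : w • x = x) (g : G) (hg : g ∈ inertia δ x) :
    w⁻¹ * g * w ∈ inertia δ x := by
  rw [mem_inertia_iff] at hg ⊢
  refine ⟨by rw [dg_mul, dg_mul, dg_inv, hg.1]; ring, ?_⟩
  have h1 : w⁻¹ • x = x := by
    nth_rewrite 1 [← hw]
    rw [inv_smul_smul]
  rw [mul_smul, mul_smul, hw, hg.2, h1]

theorem pow_smul_eq (x : X) (w : G) (hw : w • x = x) (e : ℕ) : w ^ e • x = x :=
  (stabilizer G x).pow_mem (show w ∈ stabilizer G x from hw) e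

theorem restrict_pow (ρ : Representation ℂ G U) (I : Subgroup G) (w : G)
    (hw : ∀ g ∈ I, w⁻¹ * g * w ∈ I) (e : ℕ) (hwe : ∀ g ∈ I, (w ^ e)⁻¹ * g * w ^ e ∈ I) :
    ((ρ w).restrict (mapsTo_invs ρ I w hw)) ^ e =
      (ρ (w ^ e)).restrict (mapsTo_invs ρ I (w ^ e) hwe) := by
  apply LinearMap.ext
  intro y
  apply Subtype.ext
  have h3 : ∀ k : ℕ, ((((ρ w).restrict (mapsTo_invs ρ I w hw)) ^ k) y : U) = ρ (w ^ k) y := by
    intro k
    induction k with
    | zero => simp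
    | succ k ih =>
      rw [pow_succ', Module.End.mul_apply, pow_succ', map_mul, Module.End.mul_apply, ← ih]
      rfl
  rw [h3]
  rfl

variable [hfk : Finite δ.ker]

instance inertia_finite (x : X) : Finite (inertia δ x) :=
  Finite.of_injective (fun g : inertia δ x => (⟨g.1, g.2.1⟩ : δ.ker)) (by
    intro a b h
    exact Subtype.ext (congrArg (fun z : δ.ker => (z : G)) h))

theorem sum_lev [Fintype δ.ker] (φ : G) (hφ : dg δ φ = 1) (m : ℕ) (t : G → ℂ) :
    ∑ w ∈ lev δ (m : ℤ), t w = ∑ g : δ.ker, t (φ ^ m * (g : G)) := by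
  classical
  refine Finset.sum_bij' (i := fun w hw => (⟨(φ ^ m)⁻¹ * w, ?_⟩ : δ.ker))
    (j := fun (g : δ.ker) _ => φ ^ m * (g : G)) ?_ ?_ ?_ ?_ ?_
  · rw [mem_lev] at hw
    rw [mem_ker_iff, dg_mul, dg_inv, dg_pow, hφ, hw]
    ring
  · intro w hw
    exact Finset.mem_univ _
  · intro g _
    rw [mem_lev, dg_mul, dg_pow, hφ, (mem_ker_iff δ _).1 g.2]
    ring
  · intro w hw
    simp
  · intro g _
    apply Subtype.ext
    simp
  · intro w hw
    simp

variable {P : Type*} {pt : P → X} {fr : P → G} {deg : P → ℕ}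

theorem fsum_eq (H : IsPlaces δ pt fr deg) (v : P) [Fintype (inertia δ (pt v))] (e : ℕ)
    (t : G → ℂ) :
    fsum δ t ((deg v * e : ℕ) : ℤ) (pt v) = ∑ g : inertia δ (pt v), t (fr v ^ e * (g : G)) := by
  classical
  unfold fsum
  have hfix : fr v ^ e • pt v = pt v := pow_smul_eq _ _ (H.fixes v) e
  have hfix' : (fr v ^ e)⁻¹ • pt v = pt v := by
    nth_rewrite 1 [← hfix]
    rw [inv_smul_smul]
  refine Finset.sum_bij' (i := fun w hw => (⟨(fr v ^ e)⁻¹ * w, ?_⟩ : inertia δ (pt v)))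
    (j := fun (g : inertia δ (pt v)) _ => fr v ^ e * (g : G)) ?_ ?_ ?_ ?_ ?_
  · rw [Finset.mem_filter, mem_lev] at hw
    rw [mem_inertia_iff, dg_mul, dg_inv, dg_pow, H.degree, hw.1]
    refine ⟨by push_cast; ring, ?_⟩
    rw [mul_smul, hw.2, hfix']
  · intro w hw
    exact Finset.mem_univ _
  · intro g _
    have hg := (mem_inertia_iff δ (pt v) (g : G)).1 g.2
    rw [Finset.mem_filter, mem_lev, dg_mul, dg_pow, H.degree, hg.1]
    refine ⟨by push_cast; ring, ?_⟩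
    rw [mul_smul, hg.2, hfix]
  · intro w hw
    simp
  · intro g _
    apply Subtype.ext
    simp
  · intro w hw
    simp

theorem trace_conj [FiniteDimensional ℂ U] (ρ : Representation ℂ G U) (g w : G) :
    LinearMap.trace ℂ U (ρ (g * w * g⁻¹)) = LinearMap.trace ℂ U (ρ w) := by
  rw [map_mul, LinearMap.trace_mul_comm, ← map_mul, ← mul_assoc, inv_mul_cancel, one_mul]

/-- The Frobenius endomorphism of the inertia invariants. -/
noncomputable def frobInv (ρ : Representation ℂ G U) (x : X) (w : G) (hw : w • x = x) :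
    invs ρ (inertia δ x) →ₗ[ℂ] invs ρ (inertia δ x) :=
  (ρ w).restrict (mapsTo_invs ρ _ w (conj_inertia δ x w hw))

/-- The endomorphism of the invariants of the geometric group. -/
noncomputable def geoInv (ρ : Representation ℂ G U) (w : G) :
    invs ρ δ.ker →ₗ[ℂ] invs ρ δ.ker :=
  (ρ w).restrict (mapsTo_invs ρ _ w (conj_ker δ w))

theorem sum_lev_trace [FiniteDimensional ℂ U] (ρ : Representation ℂ G U) (φ : G)
    (hφ : dg δ φ = 1) (m : ℕ) :
    ∑ w ∈ lev δ (m : ℤ), LinearMap.trace ℂ U (ρ w) =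
      (Nat.card δ.ker : ℂ) * LinearMap.trace ℂ (invs ρ δ.ker) (geoInv δ ρ φ ^ m) := by
  classical
  let _ : Fintype δ.ker := Fintype.ofFinite _
  rw [sum_lev δ φ hφ, sum_trace ρ δ.ker (φ ^ m) (conj_ker δ _), Nat.card_eq_fintype_card,
    geoInv, restrict_pow ρ δ.ker φ (conj_ker δ _) m (conj_ker δ _)]

theorem fsum_trace [FiniteDimensional ℂ U] (ρ : Representation ℂ G U)
    (H : IsPlaces δ pt fr deg) (v : P) (e : ℕ) :
    fsum δ (fun w => LinearMap.trace ℂ U (ρ w)) ((deg v * e : ℕ) : ℤ) (pt v) =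
      (Nat.card (inertia δ (pt v)) : ℂ) * LinearMap.trace ℂ (invs ρ (inertia δ (pt v)))
        (frobInv δ ρ (pt v) (fr v) (H.fixes v) ^ e) := by
  classical
  let _ : Fintype (inertia δ (pt v)) := Fintype.ofFinite _
  have hc := conj_inertia δ (pt v) (fr v ^ e) (pow_smul_eq _ _ (H.fixes v) e)
  rw [fsum_eq δ H v e, sum_trace ρ (inertia δ (pt v)) (fr v ^ e) hc, Nat.card_eq_fintype_card,
    frobInv, restrict_pow ρ _ (fr v) (conj_inertia δ _ _ (H.fixes v)) e hc]

/-- **The trace formula.** -/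
theorem trace_formula [FiniteDimensional ℂ U] (ρ : Representation ℂ G U)
    {W : Type*} [AddCommGroup W] [Module ℂ W] [FiniteDimensional ℂ W] (σ : Representation ℂ G W)
    (H : IsPlaces δ pt fr deg) (φ : G) (hφ : dg δ φ = 1) (q : ℂ) (m : ℕ)
    (hf : ∀ w : G, dg δ w = m → {x : X | w • x = x}.Finite)
    (hcount : ∀ w : G, dg δ w = m →
      (Nat.card {x : X // w • x = x} : ℂ) = 1 + q ^ m - LinearMap.trace ℂ W (σ w))
    (hfin : {v | deg v ∣ m}.Finite) :
    ∑ v ∈ hfin.toFinset, (deg v : ℂ) * LinearMap.trace ℂ (invs ρ (inertia δ (pt v)))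
        (frobInv δ ρ (pt v) (fr v) (H.fixes v) ^ (m / deg v)) =
      (1 + q ^ m) * LinearMap.trace ℂ (invs ρ δ.ker) (geoInv δ ρ φ ^ m) -
        LinearMap.trace ℂ (invs (ρ.tprod σ) δ.ker) (geoInv δ (ρ.tprod σ) φ ^ m) := by
  classical
  have hΓ : (Nat.card δ.ker : ℂ) ≠ 0 := by exact_mod_cast Nat.card_pos.ne'
  apply mul_left_cancel₀ hΓ
  have h1 := sum_fixed δ H φ hφ m hf (fun w => LinearMap.trace ℂ U (ρ w)) (trace_conj ρ) hfin
  have h2 : ∑ w ∈ lev δ (m : ℤ), (Nat.card {x : X // w • x = x} : ℂ) * LinearMap.trace ℂ U (ρ w) =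
      (1 + q ^ m) * ∑ w ∈ lev δ (m : ℤ), LinearMap.trace ℂ U (ρ w) -
        ∑ w ∈ lev δ (m : ℤ), LinearMap.trace ℂ (U ⊗[ℂ] W) ((ρ.tprod σ) w) := by
    rw [Finset.mul_sum, ← Finset.sum_sub_distrib]
    refine Finset.sum_congr rfl fun w hw => ?_
    rw [mem_lev] at hw
    have h3 : LinearMap.trace ℂ (U ⊗[ℂ] W) ((ρ.tprod σ) w) =
        LinearMap.trace ℂ U (ρ w) * LinearMap.trace ℂ W (σ w) :=
      LinearMap.trace_tensorProduct' (ρ w) (σ w)
    rw [hcount w hw, h3]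
    ring
  rw [h2, sum_lev_trace δ ρ φ hφ, sum_lev_trace δ (ρ.tprod σ) φ hφ] at h1
  have h4 : ∀ v ∈ hfin.toFinset, (Nat.card (orb δ φ v pt deg) : ℂ) *
      fsum δ (fun w => LinearMap.trace ℂ U (ρ w)) m (pt v) =
      (Nat.card δ.ker : ℂ) * ((deg v : ℂ) * LinearMap.trace ℂ (invs ρ (inertia δ (pt v)))
        (frobInv δ ρ (pt v) (fr v) (H.fixes v) ^ (m / deg v))) := by
    intro v hv
    rw [Set.Finite.mem_toFinset] at hv
    obtain ⟨e, he⟩ : deg v ∣ m := hv
    subst he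
    rw [fsum_trace δ ρ H v e, Nat.mul_div_cancel_left e (H.pos v), ← mul_assoc, ← mul_assoc]
    congr 1
    have h5 := card_orb δ H φ hφ v
    have h6 : (Nat.card (orb δ φ v pt deg) : ℂ) * Nat.card (inertia δ (pt v)) =
        deg v * Nat.card δ.ker := by exact_mod_cast h5
    rw [h6]
    ring
  rw [Finset.sum_congr rfl h4, ← Finset.mul_sum] at h1
  rw [← h1]
  ring

end Pool.Agent.X317.Iso
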