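import Mathlib
import Pool.Agent.X317.Iso.Trace
import Pool.Agent.X317.Iso.Euler
import Pool.Agent.W484.BB.LFun

/-!
# The L-function
-/

set_option autoImplicit false
set_option linter.unusedSectionVars false

namespace Pool.Agent.X317.Iso

open MulAction Module TensorProduct Pool.Agent.W484.BB

variable {G X : Type*} [Group G] [MulAction G X] (δ : G →* Multiplicative ℤ)
variable {U : Type*} [AddCommGroup U] [Module ℂ U]
variable [hfk : Finite δ.ker]

theorem pow_eq_pow (z : G) (hzc : ∀ g : G, z * g = g * z) (s : ℕ) (hz : dg δ z = s) (w : G) (d : ℕ)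
    (hw : dg δ w = d) : w ^ (s * Nat.card δ.ker) = z ^ (d * Nat.card δ.ker) := by
  have h1 : w ^ s * (z ^ d)⁻¹ ∈ δ.ker := by
    rw [mem_ker_iff, dg_mul, dg_inv, dg_pow, dg_pow, hz, hw]
    ring
  have h2 : (w ^ s * (z ^ d)⁻¹) ^ Nat.card δ.ker = 1 := by
    have h3 : (⟨_, h1⟩ : δ.ker) ^ Nat.card δ.ker = 1 := pow_card_eq_one'
    exact congrArg (fun g : δ.ker => (g : G)) h3
  have hc : Commute (w ^ s) ((z ^ d)⁻¹) :=
    (Commute.pow_pow (show Commute w z from (hzc w).symm) s d).inv_right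
  rw [hc.mul_pow, inv_pow, mul_inv_eq_one, ← pow_mul, ← pow_mul] at h2
  exact h2

theorem exists_eigen [FiniteDimensional ℂ U] (ρ : Representation ℂ G U) (I : Subgroup G) [Finite I]
    (z : G) (hzc : ∀ g : G, z * g = g * z) (s : ℕ) (hs : 0 < s) (hz : dg δ z = s)
    (q : ℝ) (hq : 1 < q) (n : ℕ)
    (hU : Submodule.span ℂ {u : U | ∃ α : ℂ, ‖α‖ ^ 2 = (q ^ s) ^ n ∧ ρ z u = α • u} = ⊤)
    (w : G) (hw : ∀ g ∈ I, w⁻¹ * g * w ∈ I) (d : ℕ) (hd : dg δ w = d) :
    ∃ (r : ℕ) (b : Basis (Fin r) ℂ (invs ρ I)) (l : Fin r → ℂ), (∀ j, ‖l j‖ ^ 2 = (q ^ n) ^ d) ∧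
      ∀ j, (ρ w).restrict (mapsTo_invs ρ I w hw) (b j) = l j • b j := by
  classical
  let _ : Fintype I := Fintype.ofFinite _
  have hq0 : 0 < q := by linarith
  have hM : 0 < s * Nat.card δ.ker := Nat.mul_pos hs Nat.card_pos
  have h1 := span_invs ρ I z hzc (fun α => ‖α‖ ^ 2 = (q ^ s) ^ n) (by
    intro α hα h0
    rw [h0, norm_zero] at hα
    have : 0 < (q ^ s) ^ n := by positivity
    norm_num at hα
    linarith) hU w hw _ _ hM (pow_eq_pow δ z hzc s hz w d hd)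
  obtain ⟨r, b, l, hl, hb⟩ := exists_eigenbasis ((ρ w).restrict (mapsTo_invs ρ I w hw))
    {l : ℂ | ‖l‖ ^ 2 = (q ^ n) ^ d} (by
    rw [eq_top_iff, ← h1]
    refine Submodule.span_mono ?_
    rintro u ⟨l, ⟨α, hα, hlα⟩, hu⟩
    refine ⟨l, ?_, hu⟩
    have h2 : (‖l‖ ^ 2) ^ (s * Nat.card δ.ker) = ((q ^ n) ^ d) ^ (s * Nat.card δ.ker) := by
      rw [← pow_mul, mul_comm 2, pow_mul, ← norm_pow, hlα, norm_pow, ← pow_mul,
        mul_comm _ 2, pow_mul, hα, ← pow_mul, ← pow_mul, ← pow_mul, ← pow_mul]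
      congr 1
      ring
    exact (pow_left_inj₀ (by positivity) (by positivity) hM.ne').1 h2)
  exact ⟨r, b, l, hl, hb⟩

theorem span_tensor {W : Type*} [AddCommGroup W] [Module ℂ W] [FiniteDimensional ℂ U]
    [FiniteDimensional ℂ W] (T : U →ₗ[ℂ] U) (S : W →ₗ[ℂ] W) (a b : ℝ)
    (hT : Submodule.span ℂ {u : U | ∃ α : ℂ, ‖α‖ ^ 2 = a ∧ T u = α • u} = ⊤)
    (hS : Submodule.span ℂ {u : W | ∃ α : ℂ, ‖α‖ ^ 2 = b ∧ S u = α • u} = ⊤) :
    Submodule.span ℂ {u : U ⊗[ℂ] W | ∃ α : ℂ, ‖α‖ ^ 2 = a * b ∧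
      TensorProduct.map T S u = α • u} = ⊤ := by
  classical
  obtain ⟨r, e, α, hα, he⟩ := exists_eigenbasis T {α | ‖α‖ ^ 2 = a} hT
  obtain ⟨r', e', β, hβ, he'⟩ := exists_eigenbasis S {α | ‖α‖ ^ 2 = b} hS
  rw [eq_top_iff, ← (e.tensorProduct e').span_eq, Submodule.span_le]
  rintro _ ⟨⟨i, j⟩, rfl⟩
  refine Submodule.subset_span ⟨α i * β j, ?_, ?_⟩
  · rw [norm_mul, mul_pow]
    exact congrArg₂ (· * ·) (hα i) (hβ j)
  · rw [Basis.tensorProduct_apply, TensorProduct.map_tmul, he, he', TensorProduct.smul_tmul_smul]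

/-- The elements on which every `w` acts as multiplication by `μ ^ (degree of w)`. -/
def semiInvariants (ρ : Representation ℂ G U) (μ : ℂ) : Submodule ℂ U where
  carrier := {u | ∀ w : G, ρ w u = μ ^ dg δ w • u}
  zero_mem' := fun g => by rw [map_zero, smul_zero]
  add_mem' := fun {a b} ha hb g => by rw [map_add, ha g, hb g, smul_add]
  smul_mem' := fun c a ha g => by rw [map_smul, ha g, smul_comm]

omit hfk in
theorem mem_semiInvariants (ρ : Representation ℂ G U) (μ : ℂ) (u : U) :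
    u ∈ semiInvariants δ ρ μ ↔ ∀ w : G, ρ w u = μ ^ dg δ w • u := Iff.rfl

omit hfk in
theorem semiInvariants_eq (ρ : Representation ℂ G U) (μ : ℂ) (hμ : μ ≠ 0) (φ : G)
    (hφ : dg δ φ = 1) : semiInvariants δ ρ μ =
      (LinearMap.eqLocus (geoInv δ ρ φ) (μ • LinearMap.id)).map (invs ρ δ.ker).subtype := by
  apply le_antisymm
  · intro u hu
    have h1 : u ∈ invs ρ δ.ker := by
      intro g hg
      rw [hu g, (mem_ker_iff δ g).1 hg, zpow_zero, one_smul]
    refine ⟨⟨u, h1⟩, ?_, rfl⟩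
    rw [SetLike.mem_coe, mem_eqLocus_smul]
    apply Subtype.ext
    change ρ φ u = μ • u
    rw [hu φ, hφ, zpow_one]
  · rintro _ ⟨⟨u, hu⟩, h, rfl⟩
    rw [SetLike.mem_coe, mem_eqLocus_smul] at h
    have h1 : ρ φ u = μ • u := congrArg (fun y : invs ρ δ.ker => (y : U)) h
    have h2 : ∀ k : ℕ, ρ (φ ^ k) u = μ ^ k • u := by
      intro k
      induction k with
      | zero => simp
      | succ k ih => rw [pow_succ', map_mul, Module.End.mul_apply, ih, map_smul, h1, smul_smul,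
          pow_succ]
    have h3 : ∀ k : ℕ, ρ ((φ ^ k)⁻¹) u = (μ ^ k)⁻¹ • u := by
      intro k
      have h4 : ρ ((φ ^ k)⁻¹) (ρ (φ ^ k) u) = u := by
        rw [← Module.End.mul_apply, ← map_mul, inv_mul_cancel, map_one, Module.End.one_apply]
      rw [h2, map_smul] at h4
      nth_rewrite 2 [← h4]
      rw [smul_smul, inv_mul_cancel₀ (pow_ne_zero _ hμ), one_smul]
    have h5 : ∀ k : ℤ, ρ (φ ^ k) u = μ ^ k • u := by
      intro k
      rcases Int.eq_nat_or_neg k with ⟨m, rfl | rfl⟩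
      · rw [zpow_natCast, zpow_natCast, h2]
      · rw [zpow_neg, zpow_natCast, zpow_neg, zpow_natCast, h3]
    intro w
    change ρ w u = μ ^ dg δ w • u
    have h6 : w * (φ ^ dg δ w)⁻¹ ∈ δ.ker := by
      rw [mem_ker_iff, dg_mul, dg_inv, dg_zpow, hφ]
      ring
    have h7 : w = φ ^ dg δ w * ((φ ^ dg δ w)⁻¹ * w) := by group
    have h8 : (φ ^ dg δ w)⁻¹ * w ∈ δ.ker := by
      rw [mem_ker_iff, dg_mul, dg_inv, dg_zpow, hφ]
      ring
    nth_rewrite 1 [h7]
    rw [map_mul, Module.End.mul_apply, hu _ h8, h5]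

/-- The function `Λ`. -/
noncomputable def Lam2 (q : ℝ) {r r' : ℕ} (γ : Fin r → ℂ) (α : Fin r' → ℂ) (s : ℂ) : ℂ :=
  (∏ k, fac q (γ k) s) / ∏ j, (fac q (α j) s * fac q (q * α j) s)

theorem meromorphic_Lam2 (q : ℝ) (hq : 0 < q) {r r' : ℕ} (γ : Fin r → ℂ) (α : Fin r' → ℂ) (s : ℂ) :
    MeromorphicAt (Lam2 q γ α) s := by
  unfold Lam2
  refine MeromorphicAt.fun_div ?_ ?_
  · exact MeromorphicAt.fun_prod fun k _ => (analyticAt_fac q hq _ s).meromorphicAt
  · exact MeromorphicAt.fun_prod fun k _ => ((analyticAt_fac q hq _ s).meromorphicAt).fun_mul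
      (analyticAt_fac q hq _ s).meromorphicAt

theorem order_Lam2 (q : ℝ) (hq : 1 < q) {r r' : ℕ} (γ : Fin r → ℂ) (α : Fin r' → ℂ)
    (i : ℕ) (hα : ∀ j, ‖α j‖ ^ 2 * q = q ^ (2 * i)) :
    meromorphicOrderAt (Lam2 q γ α) i =
      ((Nat.card {k : Fin r // γ k = (q : ℂ) ^ i} : ℕ) : ℤ) := by
  classical
  have hq0 : 0 < q := by linarith
  have hne1 : ∀ j, fac q (α j) i ≠ 0 := by
    intro j h
    rw [fac_eq_zero_iff q hq0] at h
    have h1 := hα j
    rw [h, norm_pow, Complex.norm_real, Real.norm_of_nonneg hq0.le, ← pow_mul, mul_comm i 2] at h1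
    have h2 : 0 < q ^ (2 * i) := by positivity
    nlinarith
  have hne2 : ∀ j, fac q (q * α j) i ≠ 0 := by
    intro j h
    rw [fac_eq_zero_iff q hq0] at h
    have h1 := hα j
    have h3 : ‖(q : ℂ) * α j‖ ^ 2 = q ^ (2 * i) := by
      rw [h, norm_pow, Complex.norm_real, Real.norm_of_nonneg hq0.le, ← pow_mul, mul_comm i 2]
    rw [norm_mul, Complex.norm_real, Real.norm_of_nonneg hq0.le, mul_pow] at h3
    have h2 : 0 < q ^ (2 * i) := by positivity
    have h4 : 0 < ‖α j‖ ^ 2 * q := by rw [h1]; exact h2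
    have h5 : q * (‖α j‖ ^ 2 * q) = ‖α j‖ ^ 2 * q := by
      rw [h1]
      nlinarith
    nlinarith
  have hmer : ∀ γ, MeromorphicAt (fac q γ) (i : ℂ) :=
    fun γ => (analyticAt_fac q hq0 γ _).meromorphicAt
  unfold Lam2
  rw [fun_meromorphicOrderAt_div (MeromorphicAt.fun_prod fun k _ => hmer _)
    (MeromorphicAt.fun_prod fun k _ => (hmer _).fun_mul (hmer _)),
    meromorphicOrderAt_fun_prod (fun k _ => hmer _),
    meromorphicOrderAt_fun_prod (fun k _ => (hmer _).fun_mul (hmer _))]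
  have h1 : ∑ j, meromorphicOrderAt (fun s => fac q (α j) s * fac q (q * α j) s) (i : ℂ) = 0 := by
    refine Finset.sum_eq_zero fun j _ => ?_
    rw [fun_meromorphicOrderAt_mul (hmer _) (hmer _), order_fac q hq, order_fac q hq,
      if_neg (hne1 j), if_neg (hne2 j), add_zero]
  rw [h1, sub_zero, Nat.card_eq_fintype_card, Fintype.card_subtype, Finset.card_filter]
  push_cast
  refine Finset.sum_congr rfl fun k _ => ?_
  rw [order_fac q hq]
  simp only [fac_eq_zero_iff q hq0]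
  split_ifs <;> rfl

end Pool.Agent.X317.Iso
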