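import Mathlib
import Pool.Agent.X317.Iso.Lfun

/-!
# The L-function and its order of vanishing
-/

set_option autoImplicit false
set_option linter.unusedSectionVars false

namespace Pool.Agent.X317.Iso

open MulAction Module TensorProduct Pool.Agent.W484.BB

variable {G X : Type*} [Group G] [MulAction G X] (δ : G →* Multiplicative ℤ)
variable {U : Type*} [AddCommGroup U] [Module ℂ U] [FiniteDimensional ℂ U]
variable {W : Type*} [AddCommGroup W] [Module ℂ W] [FiniteDimensional ℂ W]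
variable [hfk : Finite δ.ker]

theorem norm_trace_le (σ : Representation ℂ G W) (z : G) (hzc : ∀ g : G, z * g = g * z) (s : ℕ)
    (hs : 0 < s) (hz : dg δ z = s) (q : ℝ) (hq : 1 < q)
    (hW : Submodule.span ℂ {u : W | ∃ α : ℂ, ‖α‖ ^ 2 = q ^ s ∧ σ z u = α • u} = ⊤)
    (w : G) (m : ℕ) (hw : dg δ w = m) :
    ‖LinearMap.trace ℂ W (σ w)‖ ≤ finrank ℂ W * q ^ m := by
  classical
  have hcon : ∀ g ∈ (⊥ : Subgroup G), w⁻¹ * g * w ∈ (⊥ : Subgroup G) := by
    intro g hg
    rw [Subgroup.mem_bot] at hg ⊢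
    rw [hg]
    group
  obtain ⟨r, b, l, hl, hb⟩ := exists_eigen δ σ ⊥ z hzc s hs hz q hq 1
    (by simpa only [pow_one] using hW) w hcon m hw
  have h1 := sum_trace σ ⊥ w hcon
  rw [Fintype.card_unique, Nat.cast_one, one_mul] at h1
  have h2 : ∑ g : (⊥ : Subgroup G), LinearMap.trace ℂ W (σ (w * (g : G))) =
      LinearMap.trace ℂ W (σ w) := by
    rw [Fintype.sum_unique]
    congr 2
    change w * 1 = w
    rw [mul_one]
  rw [h2] at h1
  have h3 := trace_pow ((σ w).restrict (mapsTo_invs σ ⊥ w hcon)) b l hb 1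
  simp only [pow_one] at h3
  rw [h1, h3]
  have h4 : ∀ j, ‖l j‖ ≤ q ^ m := by
    intro j
    have h5 := hl j
    rw [pow_one] at h5
    have h6 : (1 : ℝ) ≤ q ^ m := one_le_pow₀ hq.le
    by_contra h
    push Not at h
    nlinarith [norm_nonneg (l j)]
  have h7 : r ≤ finrank ℂ W := by
    have h8 := Module.finrank_eq_card_basis b
    rw [Fintype.card_fin] at h8
    rw [← h8]
    exact Submodule.finrank_le _
  calc ‖∑ j, l j‖ ≤ ∑ j, ‖l j‖ := norm_sum_le _ _
    _ ≤ ∑ j : Fin r, q ^ m := Finset.sum_le_sum fun j _ => h4 j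
    _ = r * q ^ m := by rw [Finset.sum_const, Finset.card_univ, Fintype.card_fin, nsmul_eq_mul]
    _ ≤ finrank ℂ W * q ^ m := by
        refine mul_le_mul_of_nonneg_right ?_ (by positivity)
        exact_mod_cast h7

variable {P : Type*} {pt : P → X} {fr : P → G} {deg : P → ℕ}

/-- The number of places. -/
theorem sum_deg_le (H : IsPlaces δ pt fr deg) (φ : G) (hφ : dg δ φ = 1) (m : ℕ)
    (hf : ∀ w : G, dg δ w = m → {x : X | w • x = x}.Finite)
    (B : ℝ) (hB : ∀ w : G, dg δ w = m → (Nat.card {x : X // w • x = x} : ℝ) ≤ B)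
    (hfin : {v | deg v ∣ m}.Finite) :
    ∑ v ∈ hfin.toFinset, (deg v : ℝ) ≤ Nat.card δ.ker * B := by
  classical
  let _ : Fintype δ.ker := Fintype.ofFinite _
  have h1 := sum_fixed δ H φ hφ m hf (fun _ => (1 : ℂ)) (fun _ _ => rfl) hfin
  simp only [mul_one] at h1
  have h2 : ∀ v ∈ hfin.toFinset, ∃ k : ℕ, deg v ≤ k ∧ (Nat.card (orb δ φ v pt deg) : ℂ) *
      fsum δ (fun _ => (1 : ℂ)) m (pt v) = k := by
    intro v hv
    rw [Set.Finite.mem_toFinset] at hv
    obtain ⟨e, he⟩ : deg v ∣ m := hv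
    subst he
    refine ⟨Nat.card (orb δ φ v pt deg) *
      (Finset.filter (fun w => w • pt v = pt v) (lev δ ((deg v * e : ℕ) : ℤ))).card, ?_, ?_⟩
    · have h3 : 1 ≤ (Finset.filter (fun w => w • pt v = pt v)
          (lev δ ((deg v * e : ℕ) : ℤ))).card := by
        rw [Nat.one_le_iff_ne_zero, Ne, Finset.card_eq_zero, ← Ne, ← Finset.nonempty_iff_ne_empty]
        refine ⟨fr v ^ e, ?_⟩
        rw [Finset.mem_filter, mem_lev, dg_pow, H.degree]
        refine ⟨by push_cast; ring, pow_smul_eq _ _ (H.fixes v) e⟩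
      have h4 : deg v ≤ Nat.card (orb δ φ v pt deg) := by
        have h5 := card_orb δ H φ hφ v
        have h6 : Nat.card (inertia δ (pt v)) ≤ Nat.card δ.ker :=
          Nat.card_le_card_of_injective
            (fun g : inertia δ (pt v) => (⟨g.1, g.2.1⟩ : δ.ker)) (by
            intro a b h
            exact Subtype.ext (congrArg (fun z : δ.ker => (z : G)) h))
        have h7 : 0 < Nat.card δ.ker := Nat.card_pos
        by_contra h8
        push Not at h8
        have h9 : Nat.card (orb δ φ v pt deg) * Nat.card (inertia δ (pt v)) ≤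
            Nat.card (orb δ φ v pt deg) * Nat.card δ.ker := Nat.mul_le_mul_left _ h6
        have h10 := Nat.mul_lt_mul_of_pos_right h8 h7
        omega
      calc deg v = deg v * 1 := (mul_one _).symm
        _ ≤ _ := Nat.mul_le_mul h4 h3
    · unfold fsum
      rw [Finset.sum_const, nsmul_eq_mul, mul_one]
      push_cast
      rfl
  choose! k hk1 hk2 using h2
  rw [Finset.sum_congr rfl hk2] at h1
  have h3 : ∑ w ∈ lev δ (m : ℤ), (Nat.card {x : X // w • x = x} : ℝ) =
      ∑ v ∈ hfin.toFinset, (k v : ℝ) := by exact_mod_cast h1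
  calc ∑ v ∈ hfin.toFinset, (deg v : ℝ) ≤ ∑ v ∈ hfin.toFinset, (k v : ℝ) :=
        Finset.sum_le_sum fun v hv => by exact_mod_cast hk1 v hv
    _ = ∑ w ∈ lev δ (m : ℤ), (Nat.card {x : X // w • x = x} : ℝ) := h3.symm
    _ ≤ ∑ w ∈ lev δ (m : ℤ), B := Finset.sum_le_sum fun w hw => hB w ((mem_lev δ _ w).1 hw)
    _ = (lev δ (m : ℤ)).card * B := by rw [Finset.sum_const, nsmul_eq_mul]
    _ = Nat.card δ.ker * B := by
        congr 2
        have h4 : ((lev δ (m : ℤ)).card : ℂ) = Nat.card δ.ker := by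
          have h5 := sum_lev δ φ hφ m (fun _ => (1 : ℂ))
          rw [Finset.sum_const, Finset.sum_const, nsmul_eq_mul, nsmul_eq_mul, mul_one, mul_one,
            Finset.card_univ] at h5
          rw [h5, Nat.card_eq_fintype_card]
        exact_mod_cast h4

/-- The factor `det (1 - y T)⁻¹`. -/
noncomputable def detFactor {U : Type*} [AddCommGroup U] [Module ℂ U] (T : U →ₗ[ℂ] U) (y : ℂ) : ℂ :=
  (LinearMap.det (LinearMap.id - y • T))⁻¹

/-- The Euler factor `det (1 - y w)⁻¹` on the invariants of the inertia group of `x`. -/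
noncomputable def eulerFactor {G X : Type*} [Group G] [MulAction G X] (δ : G →* Multiplicative ℤ)
    {U : Type*} [AddCommGroup U] [Module ℂ U] (ρ : Representation ℂ G U) (x : X) (w : G)
    (hw : w • x = x) (y : ℂ) : ℂ :=
  detFactor (frobInv δ ρ x w hw) y

/-- **The L-function.** -/
theorem lfunction (ρ : Representation ℂ G U) (σ : Representation ℂ G W)
    (H : IsPlaces δ pt fr deg) (φ : G) (hφ : dg δ φ = 1)
    (z : G) (hzc : ∀ g : G, z * g = g * z) (s : ℕ) (hs : 0 < s) (hz : dg δ z = s)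
    (q : ℝ) (hq : 1 < q) (n : ℕ)
    (hU : Submodule.span ℂ {u : U | ∃ α : ℂ, ‖α‖ ^ 2 = (q ^ s) ^ n ∧ ρ z u = α • u} = ⊤)
    (hW : Submodule.span ℂ {u : W | ∃ α : ℂ, ‖α‖ ^ 2 = q ^ s ∧ σ z u = α • u} = ⊤)
    (hf : ∀ m : ℕ, 0 < m → ∀ w : G, dg δ w = m → {x : X | w • x = x}.Finite)
    (hcount : ∀ m : ℕ, 0 < m → ∀ w : G, dg δ w = m →
      (Nat.card {x : X // w • x = x} : ℂ) = 1 + (q : ℂ) ^ m - LinearMap.trace ℂ W (σ w))
    (i : ℕ) (hi : 2 * i = n + 1) :
    ∃ Λ : ℂ → ℂ, (∀ t, MeromorphicAt Λ t) ∧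
      (∀ t : ℂ, (n : ℝ) / 2 + 1 < t.re → HasProd (fun v => eulerFactor δ ρ (pt v) (fr v)
        (H.fixes v) (((q : ℂ) ^ (-t)) ^ deg v)) (Λ t)) ∧
      meromorphicOrderAt Λ (i : ℂ) =
        ((finrank ℂ (semiInvariants δ (ρ.tprod σ) ((q : ℂ) ^ i)) : ℤ) : WithTop ℤ) := by
  classical
  have hq0 : 0 < q := by linarith
  have hqc : (q : ℂ) ≠ 0 := by exact_mod_cast hq0.ne'
  -- eigenvalues
  have h1 : ∀ v, ∃ (r : ℕ) (b : Basis (Fin r) ℂ (invs ρ (inertia δ (pt v)))) (l : Fin r → ℂ),
      (∀ j, ‖l j‖ ^ 2 = (q ^ n) ^ deg v) ∧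
      ∀ j, frobInv δ ρ (pt v) (fr v) (H.fixes v) (b j) = l j • b j := fun v =>
    exists_eigen δ ρ (inertia δ (pt v)) z hzc s hs hz q hq n hU (fr v)
      (conj_inertia δ _ _ (H.fixes v)) (deg v) (H.degree v)
  choose r b l hl hb using h1
  obtain ⟨r', b', α, hα, hb'⟩ := exists_eigen δ ρ δ.ker z hzc s hs hz q hq n hU φ
    (conj_ker δ φ) 1 (by rw [hφ]; rfl)
  have hUW : Submodule.span ℂ {u : U ⊗[ℂ] W | ∃ α : ℂ, ‖α‖ ^ 2 = (q ^ s) ^ (n + 1) ∧
      (ρ.tprod σ) z u = α • u} = ⊤ := by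
    rw [pow_succ]
    exact span_tensor (ρ z) (σ z) _ _ hU hW
  obtain ⟨r'', b'', γ, hγ, hb''⟩ := exists_eigen δ (ρ.tprod σ) δ.ker z hzc s hs hz q hq (n + 1)
    hUW φ (conj_ker δ φ) 1 (by rw [hφ]; rfl)
  simp only [pow_one] at hα hγ
  have hfin : ∀ m, 0 < m → {v | deg v ∣ m}.Finite := fun m hm =>
    places_finite δ H m (hf m hm)
  refine ⟨Lam2 q γ α, meromorphic_Lam2 q hq0 γ α, ?_, ?_⟩
  · intro t ht
    have hQ1 : (1 : ℝ) ≤ q ^ ((n : ℝ) / 2) := Real.one_le_rpow hq.le (by positivity)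
    have hQpow : ∀ d : ℕ, (q ^ ((n : ℝ) / 2)) ^ d = q ^ (((n * d : ℕ) : ℝ) / 2) := by
      intro d
      rw [← Real.rpow_natCast, ← Real.rpow_mul hq0.le]
      congr 1
      push_cast
      ring
    have h3 := hasProd_euler deg H.pos hfin q (q ^ ((n : ℝ) / 2))
      (Nat.card δ.ker * (2 + finrank ℂ W)) hq.le hQ1 (by positivity) (by
        intro m hm
        have h4 := sum_deg_le δ H φ hφ m (hf m hm) ((2 + finrank ℂ W) * q ^ m) (by
          intro w hw
          have h5 : ((Nat.card {x : X // w • x = x} : ℕ) : ℝ) =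
              ‖((Nat.card {x : X // w • x = x} : ℕ) : ℂ)‖ := by rw [Complex.norm_natCast]
          rw [h5, hcount m hm w hw]
          have hqm : 1 ≤ q ^ m := one_le_pow₀ hq.le
          calc ‖1 + (q : ℂ) ^ m - LinearMap.trace ℂ W (σ w)‖
              ≤ ‖(1 : ℂ)‖ + ‖(q : ℂ) ^ m‖ + ‖LinearMap.trace ℂ W (σ w)‖ := by
                refine (norm_sub_le _ _).trans ?_
                exact add_le_add_left (norm_add_le _ _) _
            _ ≤ 1 + q ^ m + finrank ℂ W * q ^ m := by
                refine add_le_add (add_le_add ?_ ?_)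
                  (norm_trace_le δ σ z hzc s hs hz q hq hW w m hw)
                · simp
                · rw [norm_pow, Complex.norm_real, Real.norm_of_nonneg hq0.le]
            _ ≤ (2 + finrank ℂ W) * q ^ m := by linarith) (hfin m hm)
        rw [mul_assoc]
        exact h4)
      (finrank ℂ U) r (by
        intro v
        have h8 := Module.finrank_eq_card_basis (b v)
        rw [Fintype.card_fin] at h8
        rw [← h8]
        exact Submodule.finrank_le _)
      l (by
        intro v j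
        rw [hQpow, norm_of_sq q hq0 (n * deg v) (l v j) (by rw [hl, pow_mul])])
      (A := Fin r' ⊕ Fin r') (B := Fin r'') (Sum.elim α (fun j => (q : ℂ) * α j)) γ (by
        rintro (j | j)
        · rw [Sum.elim_inl, norm_of_sq q hq0 n (α j) (hα j)]
          exact le_mul_of_one_le_right (by positivity) hq.le
        · rw [Sum.elim_inr, norm_mul, norm_of_sq q hq0 n (α j) (hα j), Complex.norm_real,
            Real.norm_of_nonneg hq0.le, mul_comm])
      (by
        intro k
        rw [norm_of_sq q hq0 (n + 1) (γ k) (hγ k)]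
        nth_rewrite 3 [← Real.rpow_one q]
        rw [← Real.rpow_add hq0]
        refine Real.rpow_le_rpow_of_exponent_le hq.le ?_
        push_cast
        linarith)
      (by
        intro m hm
        have h5 := trace_formula δ ρ σ H φ hφ (q : ℂ) m (hf m hm) (hcount m hm) (hfin m hm)
        have h6 : ∀ v, LinearMap.trace ℂ (invs ρ (inertia δ (pt v)))
            (frobInv δ ρ (pt v) (fr v) (H.fixes v) ^ (m / deg v)) = ∑ j, l v j ^ (m / deg v) :=
          fun v => trace_pow _ (b v) (l v) (hb v) _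
        simp only [h6] at h5
        have h7 : LinearMap.trace ℂ (invs ρ δ.ker) (geoInv δ ρ φ ^ m) = ∑ j, α j ^ m :=
          trace_pow _ b' α hb' m
        have h8 : LinearMap.trace ℂ (invs (ρ.tprod σ) δ.ker) (geoInv δ (ρ.tprod σ) φ ^ m) =
            ∑ j, γ j ^ m := trace_pow _ b'' γ hb'' m
        rw [h5, h7, h8]
        congr 1
        rw [Fintype.sum_sum_type]
        simp only [Sum.elim_inl, Sum.elim_inr, mul_pow]
        rw [← Finset.mul_sum]
        ring)
      ((q : ℂ) ^ (-t)) (by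
        rw [norm_cpow_neg q hq0]
        nth_rewrite 3 [← Real.rpow_one q]
        rw [← Real.rpow_add hq0, ← Real.rpow_add hq0]
        exact Real.rpow_lt_one_of_one_lt_of_neg hq (by linarith))
    convert h3 using 1
    · funext v
      unfold eulerFactor detFactor
      congr 1
      have h9 := det_one_sub (frobInv δ ρ (pt v) (fr v) (H.fixes v)) (b v) (l v) (hb v)
        (((q : ℂ) ^ (-t)) ^ deg v) 1
      rw [pow_one] at h9
      refine h9.trans ?_
      refine Finset.prod_congr rfl fun j _ => ?_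
      rw [pow_one, mul_comm]
    · unfold Lam2 fac
      rw [Fintype.prod_sum_type]
      simp only [Sum.elim_inl, Sum.elim_inr]
      rw [Finset.prod_mul_distrib]
  · rw [order_Lam2 q hq γ α i (by
      intro j
      rw [hα j, ← pow_succ, hi])]
    congr 2
    rw [semiInvariants_eq δ (ρ.tprod σ) ((q : ℂ) ^ i) (pow_ne_zero _ hqc) φ hφ]
    have h10 : finrank ℂ ((LinearMap.eqLocus (geoInv δ (ρ.tprod σ) φ)
        ((q : ℂ) ^ i • LinearMap.id)).map (invs (ρ.tprod σ) δ.ker).subtype) =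
        finrank ℂ (LinearMap.eqLocus (geoInv δ (ρ.tprod σ) φ) ((q : ℂ) ^ i • LinearMap.id)) :=
      (LinearEquiv.finrank_eq (Submodule.equivMapOfInjective _
        (Submodule.subtype_injective _) _)).symm
    rw [h10, finrank_eigenspace (geoInv δ (ρ.tprod σ) φ) b'' γ hb'']

end Pool.Agent.X317.Iso
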