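import Mathlib
import Pool.Agent.X317.Iso.Main

/-!
# The cohomology of abelian varieties, and classes on the product of an abelian variety and a curve
-/

set_option autoImplicit false

namespace Pool.Agent.X317.Iso

open TensorProduct

section

variable (V : Type) [AddCommGroup V] [Module ℂ V]

/-- The exterior algebra of `V`: the cohomology of an abelian variety with the first cohomology group
`V`. -/
def EA : Type := ExteriorAlgebra ℂ V

noncomputable instance EA.ring : Ring (EA V) := (inferInstance : Ring (ExteriorAlgebra ℂ V))

noncomputable instance EA.algebra : Algebra ℂ (EA V) :=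
  (inferInstance : Algebra ℂ (ExteriorAlgebra ℂ V))

/-- The part of degree `n` of the exterior algebra. -/
noncomputable def EA.pow (n : ℕ) : Submodule ℂ (EA V) := ⋀[ℂ]^n V

/-- The exterior power: the cohomology group of degree `n` of an abelian variety. -/
def Ext (n : ℕ) : Type := EA.pow V n

noncomputable instance Ext.addCommGroup (n : ℕ) : AddCommGroup (Ext V n) :=
  Submodule.addCommGroup (EA.pow V n)

noncomputable instance Ext.module (n : ℕ) : Module ℂ (Ext V n) := Submodule.module (EA.pow V n)

end

variable {V : Type} [AddCommGroup V] [Module ℂ V]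

/-- The inclusion of `V` in its exterior algebra. -/
noncomputable def EA.ι : V →ₗ[ℂ] EA V := ExteriorAlgebra.ι ℂ

/-- The endomorphism of the exterior algebra given by an endomorphism of `V`. -/
noncomputable def EA.map (f : V →ₗ[ℂ] V) : EA V →ₗ[ℂ] EA V := (ExteriorAlgebra.map f).toLinearMap

/-- The endomorphism of the exterior power given by an endomorphism of `V`. -/
noncomputable def Ext.map (n : ℕ) (f : V →ₗ[ℂ] V) : Ext V n →ₗ[ℂ] Ext V n := exteriorPower.map n f

theorem Ext.map_one (n : ℕ) : Ext.map n (1 : V →ₗ[ℂ] V) = 1 := exteriorPower.map_id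

theorem Ext.map_mul (n : ℕ) (a b : V →ₗ[ℂ] V) : Ext.map n (a * b) = Ext.map n a * Ext.map n b :=
  exteriorPower.map_comp (n := n) b a

/-- The class `y` in `H ^ 2` of an abelian variety with the Frobenius endomorphism `T` over the field
with `q` elements is a Tate class over some finite extension: by the theorem of Tate it is a linear
combination of classes of divisors. -/
def IsDivisorClass (T : V →ₗ[ℂ] V) (q : ℂ) (y : EA V) : Prop :=
  y ∈ EA.pow V 2 ∧ ∃ N : ℕ, 0 < N ∧ EA.map (T ^ N) y = q ^ N • y

variable {W : Type} [AddCommGroup W] [Module ℂ W]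

/-- The class `u` in the tensor product of the first cohomology groups of an abelian variety and of a
curve is a Tate class over some finite extension: by the theorem of Tate it is a linear combination of
classes of correspondences. -/
def IsCorrespondence (T : V →ₗ[ℂ] V) (S : W →ₗ[ℂ] W) (q : ℂ) (u : V ⊗[ℂ] W) : Prop :=
  ∃ N : ℕ, 0 < N ∧ TensorProduct.map (T ^ N) (S ^ N) u = q ^ N • u

/-- The cup product with the class `D`. -/
noncomputable def cup (W : Type) [AddCommGroup W] [Module ℂ W] (D : EA V) :
    V ⊗[ℂ] W →ₗ[ℂ] EA V ⊗[ℂ] W :=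
  TensorProduct.map (Algebra.lmul ℂ (EA V) D ∘ₗ EA.ι) LinearMap.id

/-- The span of the products of `k` divisor classes and a correspondence. -/
noncomputable def products (T : V →ₗ[ℂ] V) (S : W →ₗ[ℂ] W) (q : ℂ) (k : ℕ) : Submodule ℂ (EA V ⊗[ℂ] W) :=
  Submodule.span ℂ {t | ∃ (Z : Fin k → EA V) (u : V ⊗[ℂ] W),
    (∀ l, IsDivisorClass T q (Z l)) ∧ IsCorrespondence T S q u ∧ t = cup W (List.ofFn Z).prod u}

variable {G : Type} [Group G]

/-- The action on the exterior power. -/
noncomputable def extRep (ρ : Representation ℂ G V) (n : ℕ) : Representation ℂ G (Ext V n) where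
  toFun w := Ext.map n (ρ w)
  map_one' := by rw [_root_.map_one, Ext.map_one]
  map_mul' a b := by rw [_root_.map_mul, Ext.map_mul]

/-- The action of `w` on the tensor product of the cohomology of the abelian variety and of the first
cohomology group of the curve. -/
noncomputable def action (ρ : Representation ℂ G V) (σ : Representation ℂ G W) (w : G) :
    EA V ⊗[ℂ] W →ₗ[ℂ] EA V ⊗[ℂ] W :=
  TensorProduct.map (EA.map (ρ w)) (σ w)

/-- The elements of `U` on which `f w` is multiplication by `μ ^ d`, `d` the degree of `w`, for all
`w`. -/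
noncomputable def commonEigen (δ : G →* Multiplicative ℤ) {U : Type} [AddCommMonoid U] [Module ℂ U]
    (f : G → U →ₗ[ℂ] U) (μ : ℂ) : Submodule ℂ U :=
  ⨅ w : G, LinearMap.eqLocus (f w) (μ ^ dg δ w • LinearMap.id)

/-- The classes in `H ^ (2 k + 1) ⊗ H ^ 1` on which each `w` acts as multiplication by
`q ^ ((k + 1) d)`, `d` the degree of `w`, and which are linear combinations of products of `k` divisor
classes and a correspondence (over the field of constants with `q ^ s` elements). -/
noncomputable def algClasses (δ : G →* Multiplicative ℤ) (ρ : Representation ℂ G V)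
    (σ : Representation ℂ G W) (z : G) (s : ℕ) (q : ℂ) (k : ℕ) : Submodule ℂ (EA V ⊗[ℂ] W) :=
  products (ρ z) (σ z) (q ^ s) k ⊓ commonEigen δ (action ρ σ) (q ^ (k + 1))

end Pool.Agent.X317.Iso
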