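import Mathlib
import Pool.Agent.X317.Iso.Ext
import Pool.Agent.W484.BB.Main

/-!
# Global function fields, isotrivial representations and their L-functions: definitions
-/

set_option autoImplicit false

namespace Pool.Agent.X317.Iso

open NumberField Module Pool.Agent.H194R3.CM

/-- The Lefschetz formula: the elements of positive degree `m` have finitely many fixed points in `𝒞`, and
their number is `1 + q ^ m - trace (w)`. -/
def Lefschetz (𝒞 : Type) {G : Type} [Group G] [MulAction G 𝒞] (δ : G →* Multiplicative ℤ)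
    {W : Type} [AddCommGroup W] [Module ℂ W] (σ : Representation ℂ G W) (q : ℕ) : Prop :=
  ∀ m : ℕ, 0 < m → ∀ w : G, dg δ w = m → {x : 𝒞 | w • x = x}.Finite ∧
    (Nat.card {x : 𝒞 // w • x = x} : ℂ) = 1 + (q : ℂ) ^ m - LinearMap.trace ℂ W (σ w)

/-- `G` is the group of the automorphisms of `K' / F` that act on `𝔽̄` as a power of the Frobenius, `δ` is
the degree (its kernel is finite and it is surjective), `z` is a central element of the degree `s > 0`,
its eigenvalues on the first cohomology group `W` of the curve with the function field `K'` are Weil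
numbers, and the numbers of fixed points, on the set `𝒞` of the points of the curve, of the elements
`w` of positive degree are given by the Lefschetz formula. -/
structure IsCover (𝒞 : Type) {G : Type} [Group G] [MulAction G 𝒞] (δ : G →* Multiplicative ℤ)
    {W : Type} [AddCommGroup W] [Module ℂ W] (σ : Representation ℂ G W) (q s : ℕ) (z : G) :
    Prop where
  finite : Finite δ.ker
  surjective : Function.Surjective δ
  central : ∀ g : G, z * g = g * z
  pos : 0 < s
  degree : dg δ z = s
  weil : Submodule.span ℂ {u : W | ∃ c : ℂ, (IsIntegral ℤ c ∧ ‖c‖ ^ 2 = (q : ℝ) ^ s) ∧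
    σ z u = c • u} = ⊤
  fixed : Lefschetz 𝒞 δ σ q

/-- The function `Λ` is meromorphic on the complex plane and for `Re t > n / 2 + 1` it is the Euler
product, over all places `v`, of the factors `det (1 - q ^ (- t deg v) fr v)⁻¹` on the invariants of
the inertia groups in the representation `ρ`. -/
structure IsLFunction {G 𝒞 : Type} [Group G] [MulAction G 𝒞] (δ : G →* Multiplicative ℤ)
    {U : Type} [AddCommGroup U] [Module ℂ U] (ρ : Representation ℂ G U) {P : Type} {pt : P → 𝒞}
    {fr : P → G} {deg : P → ℕ} (H : IsPlaces δ pt fr deg) (q n : ℕ) (Λ : ℂ → ℂ) : Prop where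
  meromorphic : ∀ t, MeromorphicAt Λ t
  euler : ∀ t : ℂ, (n : ℝ) / 2 + 1 < t.re → HasProd (fun v => eulerFactor δ ρ (pt v) (fr v)
    (H.fixes v) (((q : ℂ) ^ (-t)) ^ deg v)) (Λ t)

/-- The conditions on the eigenvalues of the Frobenius endomorphism `T` of `V` over the field with
`p ^ a` elements: they are conjugates of the Weil numbers `π i`, or supersingular. -/
structure IsFlippedType (p a : ℕ) [Fact p.Prime] {I : Type} (K : I → Type) [∀ i, Field (K i)]
    [∀ i, NumberField (K i)] [∀ i, IsCMField (K i)] (π : ∀ i, K i) {V : Type} [AddCommGroup V]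
    [Module ℂ V] (T : V →ₗ[ℂ] V) : Prop where
  weil : ∀ i, ∀ φ : K i →+* ℂ, ‖φ (π i)‖ ^ 2 = (p : ℝ) ^ a
  flip : ∀ x y : Σ i, (K i →+* ℂ), y ≠ x → y ≠ bar x → Flipped x y
  slopes : ∀ i, (finrank ℚ (K i) : ℝ) < 3 * Pool.Agent.W484.BB.spread p a (π i)
  eigen : ∃ S : Set ℂ, (∀ μ ∈ S, ∃ N : ℕ, 0 < N ∧ μ ^ (2 * N) = ((p : ℂ) ^ a) ^ N) ∧
    (S.Nonempty → ∀ i, (finrank ℚ (K i) : ℝ) < 2 * Pool.Agent.W484.BB.spread p a (π i)) ∧
    Submodule.span ℂ {v : V | (∃ i, ∃ τ : K i →+* ℂ, T v = τ (π i) • v) ∨
      ∃ μ ∈ S, T v = μ • v} = ⊤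

end Pool.Agent.X317.Iso
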