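import Mathlib
import Pool.Agent.X317.Iso.Defs
import Pool.Agent.W484.BB.Tens
import Pool.Agent.W484.BB.Main

/-!
# Isotrivial abelian varieties
-/

set_option autoImplicit false
set_option linter.unusedSectionVars false

namespace Pool.Agent.X317.Iso

open MulAction Module TensorProduct

variable {G 𝒞 : Type} [Group G] [MulAction G 𝒞] (δ : G →* Multiplicative ℤ)
variable {V : Type} [AddCommGroup V] [Module ℂ V]
variable {W : Type} [AddCommGroup W] [Module ℂ W]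

/-- The inclusion of `(⋀ ^ n V) ⊗ W`. -/
noncomputable def incl (V W : Type) [AddCommGroup V] [Module ℂ V] [AddCommGroup W] [Module ℂ W]
    (n : ℕ) : Ext V n ⊗[ℂ] W →ₗ[ℂ] EA V ⊗[ℂ] W :=
  TensorProduct.map (EA.pow V n).subtype LinearMap.id

theorem incl_injective (n : ℕ) : Function.Injective (incl V W n) :=
  Pool.Agent.W484.BB.incl_injective (V := V) (W := W) n

theorem action_incl (ρ : Representation ℂ G V) (σ : Representation ℂ G W) (w : G) (n : ℕ)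
    (u : Ext V n ⊗[ℂ] W) :
    action ρ σ w (incl V W n u) = incl V W n (((extRep ρ n).tprod σ) w u) :=
  Pool.Agent.W484.BB.map_incl (ρ w) (σ w) n u

theorem mem_commonEigen {U : Type} [AddCommMonoid U] [Module ℂ U] (f : G → U →ₗ[ℂ] U) (μ : ℂ)
    (u : U) : u ∈ commonEigen δ f μ ↔ ∀ w, f w u = μ ^ dg δ w • u := by
  unfold commonEigen
  rw [Submodule.mem_iInf]
  refine forall_congr' fun w => ?_
  rw [LinearMap.mem_eqLocus]
  rfl

theorem mem_products (T : V →ₗ[ℂ] V) (S : W →ₗ[ℂ] W) (q : ℂ) (k : ℕ) (t : EA V ⊗[ℂ] W) :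
    t ∈ products T S q k ↔
      (show ExteriorAlgebra ℂ V ⊗[ℂ] W from t) ∈ Pool.Agent.W484.BB.prodSpan₂ T S q k := Iff.rfl

theorem algClasses_eq [FiniteDimensional ℂ W] (ρ : Representation ℂ G V)
    (σ : Representation ℂ G W) (z : G) (s : ℕ) (hz : dg δ z = s) (q : ℂ) (k : ℕ) (E : Set ℂ)
    (hE : ∀ c ∈ E, c ≠ 0)
    (hG : Submodule.span ℂ {w : W | ∃ c ∈ E, σ z w = c • w} = ⊤)
    (hmain : ∀ c ∈ E, ∀ x : ExteriorAlgebra ℂ V, x ∈ ⋀[ℂ]^(2 * k + 1) V →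
      ExteriorAlgebra.map (ρ z) x = ((q ^ s) ^ (k + 1) / c) • x →
        x ∈ Pool.Agent.W484.BB.prodSpan (ρ z) (q ^ s) c k) :
    algClasses δ ρ σ z s q k =
      (semiInvariants (U := Ext V (2 * k + 1) ⊗[ℂ] W) δ ((extRep ρ (2 * k + 1)).tprod σ)
        (q ^ (k + 1))).map (incl V W (2 * k + 1)) := by
  have hmem : ∀ (w : G) (u : Ext V (2 * k + 1) ⊗[ℂ] W),
      action ρ σ w (incl V W (2 * k + 1) u) =
        (q ^ (k + 1)) ^ dg δ w • incl V W (2 * k + 1) u ↔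
      ((extRep ρ (2 * k + 1)).tprod σ) w u = (q ^ (k + 1)) ^ dg δ w • u := by
    intro w u
    rw [action_incl, ← map_smul]
    exact (incl_injective (V := V) (W := W) (2 * k + 1)).eq_iff
  apply le_antisymm
  · rintro t ⟨ht1, ht2⟩
    obtain ⟨u, hu⟩ := Pool.Agent.W484.BB.prodSpan₂_le_range (ρ z) (σ z) (q ^ s) k ht1
    obtain ⟨u, rfl⟩ : ∃ u : Ext V (2 * k + 1) ⊗[ℂ] W, incl V W (2 * k + 1) u = t := ⟨u, hu⟩
    refine ⟨u, ?_, rfl⟩
    intro w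
    exact (hmem w u).1 ((mem_commonEigen δ _ _ _).1 ht2 w)
  · rintro _ ⟨u, hu, rfl⟩
    refine ⟨?_, (mem_commonEigen δ _ _ _).2 fun w => (hmem w u).2 (hu w)⟩
    have h1 := Pool.Agent.W484.BB.algebraicClasses_eq (ρ z) (σ z) (q ^ s) k E hE hG hmain
    have h2 : (show ExteriorAlgebra ℂ V ⊗[ℂ] W from incl V W (2 * k + 1) u) ∈
        Pool.Agent.W484.BB.algebraicClasses (ρ z) (σ z) (q ^ s) k := by
      rw [h1]
      refine ⟨u, ?_, rfl⟩
      refine (Pool.Agent.W484.BB.mem_tate _ _ _ _ _).2 ?_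
      have h3 := hu z
      rw [hz, zpow_natCast] at h3
      have h4 : (q ^ s) ^ (k + 1) = (q ^ (k + 1)) ^ s := by
        rw [← pow_mul, ← pow_mul, mul_comm]
      rw [h4]
      exact h3
    exact h2.1

variable {P : Type} {pt : P → 𝒞} {fr : P → G} {deg : P → ℕ}

/-- **Isotrivial abelian varieties.** -/
theorem abel [FiniteDimensional ℂ V] [FiniteDimensional ℂ W]
    (ρ : Representation ℂ G V) (σ : Representation ℂ G W) (q s : ℕ) (hq : 1 < q) (z : G)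
    (hC : IsCover 𝒞 δ σ q s z) (H : IsPlaces δ pt fr deg) (k : ℕ)
    (hV : Submodule.span ℂ {v : V | ∃ α : ℂ, ‖α‖ ^ 2 = ((q : ℝ) ^ s) ∧ ρ z v = α • v} = ⊤)
    (hmain : ∀ c : ℂ, IsIntegral ℤ c → ‖c‖ ^ 2 = (q : ℝ) ^ s → ∀ x : ExteriorAlgebra ℂ V,
      x ∈ ⋀[ℂ]^(2 * k + 1) V →
      ExteriorAlgebra.map (ρ z) x = (((q : ℂ) ^ s) ^ (k + 1) / c) • x →
        x ∈ Pool.Agent.W484.BB.prodSpan (ρ z) ((q : ℂ) ^ s) c k) :
    ∃ Λ : ℂ → ℂ, IsLFunction δ (extRep ρ (2 * k + 1)) H q (2 * k + 1) Λ ∧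
      meromorphicOrderAt Λ ((k : ℂ) + 1) =
        ((finrank ℂ (algClasses δ ρ σ z s (q : ℂ) k) : ℤ) : WithTop ℤ) := by
  classical
  obtain ⟨hfin, hsurj, hzc, hs, hz, hW, hfix⟩ := hC
  obtain ⟨φ, hφ'⟩ := hsurj (Multiplicative.ofAdd 1)
  have hφ : dg δ φ = 1 := by
    unfold dg
    rw [hφ']
    rfl
  have hqr : (1 : ℝ) < q := by exact_mod_cast hq
  have hq0 : (0 : ℝ) < q := by linarith
  have hfd : FiniteDimensional ℂ (Ext V (2 * k + 1)) :=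
    inferInstanceAs (FiniteDimensional ℂ (⋀[ℂ]^(2 * k + 1) V))
  have hext : Submodule.span ℂ {u : Ext V (2 * k + 1) | ∃ α : ℂ,
      ‖α‖ ^ 2 = ((q : ℝ) ^ s) ^ (2 * k + 1) ∧ extRep ρ (2 * k + 1) z u = α • u} = ⊤ := by
    obtain ⟨r, b, α, hα, hb⟩ := Pool.Agent.W484.BB.exists_eigenbasis_ext (ρ z) ((q : ℝ) ^ s) hV
      (2 * k + 1)
    let b' : Basis (Fin r) ℂ (Ext V (2 * k + 1)) := b
    rw [eq_top_iff, ← b'.span_eq, Submodule.span_le]
    rintro _ ⟨j, rfl⟩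
    exact Submodule.subset_span ⟨α j, hα j, hb j⟩
  have hW' : Submodule.span ℂ {u : W | ∃ c : ℂ, ‖c‖ ^ 2 = (q : ℝ) ^ s ∧ σ z u = c • u} = ⊤ := by
    rw [eq_top_iff, ← hW]
    refine Submodule.span_mono ?_
    rintro u ⟨c, ⟨_, hc⟩, hu⟩
    exact ⟨c, hc, hu⟩
  obtain ⟨Λ, h1, h2, h3⟩ := lfunction δ (extRep ρ (2 * k + 1)) σ H φ hφ z hzc s hs hz (q : ℝ) hqr
    (2 * k + 1) hext hW' (fun m hm w hw => (hfix m hm w hw).1) (fun m hm w hw => by
      rw [(hfix m hm w hw).2]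
      push_cast
      rfl) (k + 1) (by ring)
  refine ⟨Λ, ⟨h1, fun t ht => ?_⟩, ?_⟩
  · have h4 := h2 t ht
    push_cast at h4
    exact h4
  · have h5 : (((k + 1 : ℕ) : ℕ) : ℂ) = (k : ℂ) + 1 := by push_cast; rfl
    rw [h5] at h3
    rw [h3]
    congr 2
    rw [algClasses_eq δ ρ σ z s hz (q : ℂ) k
      {c : ℂ | IsIntegral ℤ c ∧ ‖c‖ ^ 2 = (q : ℝ) ^ s} (by
        rintro c ⟨_, h4⟩ rfl
        rw [norm_zero] at h4
        have : (0 : ℝ) < (q : ℝ) ^ s := by positivity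
        norm_num at h4
        linarith) hW (fun c hc x hx hFx => hmain c hc.1 hc.2 x hx hFx)]
    have h6 : finrank ℂ ((semiInvariants (U := Ext V (2 * k + 1) ⊗[ℂ] W) δ
        ((extRep ρ (2 * k + 1)).tprod σ) ((q : ℂ) ^ (k + 1))).map (incl V W (2 * k + 1))) =
        finrank ℂ (semiInvariants (U := Ext V (2 * k + 1) ⊗[ℂ] W) δ
          ((extRep ρ (2 * k + 1)).tprod σ) ((q : ℂ) ^ (k + 1))) :=
      (LinearEquiv.finrank_eq (Submodule.equivMapOfInjective _ (incl_injective _) _)).symm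
    rw [h6]
    push_cast
    rfl

end Pool.Agent.X317.Iso
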